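import Mathlib

/-! EVT, p-adic step (helper24).  A maximal subfield of the algebraic closure of
the p-adic numbers all of whose norms have a power prime to m which is a power of p.
The number m is any integer larger than 1. -/

namespace Pool.Agent.EVT

open Polynomial IntermediateField

section
variable (p m : ℕ) [Fact p.Prime]

/-- some power of the norm, with exponent prime to m, is a power of p -/
def Tm (y : PadicAlgCl p) : Prop :=
  y = 0 ∨ ∃ (d : ℕ) (k : ℤ), Nat.Coprime d m ∧ ‖y‖ ^ d = (p : ℝ) ^ k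

/-- a tame field: maximal among the subfields with all norms tame -/
structure IsTame (F : IntermediateField ℚ_[p] (PadicAlgCl p)) : Prop where
  tm : ∀ y ∈ F, Tm p m y
  mx : ∀ x : PadicAlgCl p, (∀ y ∈ F⟮x⟯, Tm p m y) → x ∈ F

end

section
variable {p m : ℕ} [hp : Fact p.Prime]

lemma norm_pos_p : (0 : ℝ) < p := by exact_mod_cast hp.out.pos

lemma one_lt_p : (1 : ℝ) < p := by exact_mod_cast hp.out.one_lt

lemma tm_of_pow {y : PadicAlgCl p} {d : ℕ} (hd : Nat.Coprime d m)
    (h : Tm p m (y ^ d)) : Tm p m y := by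
  rcases h with h | ⟨e, k, he, hk⟩
  · exact Or.inl (eq_zero_of_pow_eq_zero h)
  · refine Or.inr ⟨d * e, k, Nat.Coprime.mul_left hd he, ?_⟩
    rw [norm_pow] at hk
    rw [pow_mul]; exact hk

lemma tm_of_norm {x y : PadicAlgCl p} (h : ‖x‖ = ‖y‖) (hx : Tm p m x) : Tm p m y := by
  rcases hx with hx | ⟨e, k, he, hk⟩
  · left
    rw [hx, norm_zero] at h
    exact norm_eq_zero.1 h.symm
  · right
    exact ⟨e, k, he, by rw [← h]; exact hk⟩

lemma tm_base (y : ℚ_[p]) : Tm p m (algebraMap ℚ_[p] (PadicAlgCl p) y) := by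
  by_cases hy : y = 0
  · left; simp [hy]
  · right
    refine ⟨1, -y.valuation, Nat.coprime_one_left m, ?_⟩
    rw [pow_one]
    have := PadicAlgCl.norm_extends (p := p) y
    rw [this, Padic.norm_eq_zpow_neg_valuation hy]

theorem exists_tame (p m : ℕ) [Fact p.Prime] : ∃ F : IntermediateField ℚ_[p] (PadicAlgCl p),
    IsTame p m F := by
  obtain ⟨F, -, hF⟩ := zorn_le_nonempty₀
    {F : IntermediateField ℚ_[p] (PadicAlgCl p) | ∀ y ∈ F, Tm p m y} (by
      intro c hc hch y hy
      have : Nonempty c := ⟨⟨y, hy⟩⟩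
      refine ⟨⨆ i : c, (i : IntermediateField ℚ_[p] (PadicAlgCl p)), ?_, fun z hz =>
        le_iSup (fun i : c => (i : IntermediateField ℚ_[p] (PadicAlgCl p))) ⟨z, hz⟩⟩
      intro x hx
      have hd : Directed (· ≤ ·) (fun i : c => (i : IntermediateField ℚ_[p] (PadicAlgCl p))) :=
        hch.directed
      have h1 := IntermediateField.coe_iSup_of_directed hd
      have h2 : x ∈ ((⨆ i : c, (i : IntermediateField ℚ_[p] (PadicAlgCl p)) :
          IntermediateField ℚ_[p] (PadicAlgCl p)) : Set (PadicAlgCl p)) := hx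
      rw [h1] at h2
      obtain ⟨i, hi⟩ := Set.mem_iUnion.1 h2
      exact hc i.2 x hi) ⊥ (by
      intro y hy
      obtain ⟨z, rfl⟩ := IntermediateField.mem_bot.1 hy
      exact tm_base z)
  refine ⟨F, hF.1, fun x hx => ?_⟩
  have h1 : F ≤ (F⟮x⟯).restrictScalars ℚ_[p] := by
    intro y hy
    rw [IntermediateField.mem_restrictScalars]
    exact F⟮x⟯.algebraMap_mem ⟨y, hy⟩
  have h2 := hF.2 (y := (F⟮x⟯).restrictScalars ℚ_[p]) (by
    intro y hy
    exact hx y hy) h1
  exact h2 (by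
    rw [IntermediateField.mem_restrictScalars]
    exact mem_adjoin_simple_self F x)

variable {F : IntermediateField ℚ_[p] (PadicAlgCl p)}

lemma norm_alg (σ : PadicAlgCl p ≃ₐ[F] PadicAlgCl p) (x : PadicAlgCl p) : ‖σ x‖ = ‖x‖ := by
  have := spectralNorm_eq_of_equiv (K := ℚ_[p]) (σ.restrictScalars ℚ_[p]) x
  rw [PadicAlgCl.spectralNorm_eq, PadicAlgCl.spectralNorm_eq] at this
  exact this.symm

instance : Algebra.IsAlgebraic F (PadicAlgCl p) :=
  Algebra.IsAlgebraic.tower_top (K := ℚ_[p]) F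

instance : CharZero F := charZero_of_injective_algebraMap (algebraMap ℚ_[p] F).injective

lemma isInt (x : PadicAlgCl p) : IsIntegral F x := (Algebra.IsAlgebraic.isAlgebraic x).isIntegral

lemma norm_root (x y : PadicAlgCl p) (h : aeval y (minpoly F x) = 0) : ‖y‖ = ‖x‖ := by
  obtain ⟨σ, hσ⟩ := minpoly.exists_algEquiv_of_root' (K := F) (isInt x).isAlgebraic h
  rw [← hσ, norm_alg]

lemma norm_const (x : PadicAlgCl p) :
    ‖((minpoly F x).coeff 0 : PadicAlgCl p)‖ = ‖x‖ ^ (minpoly F x).natDegree := by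
  set g := (minpoly F x).map (algebraMap F (PadicAlgCl p)) with hg
  have hmon : g.Monic := (minpoly.monic (isInt x)).map _
  have hs : g.Splits := IsAlgClosed.splits g
  have h1 : g.coeff 0 = (-1) ^ g.natDegree * g.roots.prod := by
    exact hs.coeff_zero_eq_prod_roots_of_monic hmon
  have h2 : g.coeff 0 = ((minpoly F x).coeff 0 : PadicAlgCl p) := by
    rw [hg, coeff_map]; rfl
  rw [← h2, h1, norm_mul, norm_pow, norm_neg, norm_one, one_pow, one_mul]
  have h3 : g.roots.card = (minpoly F x).natDegree := by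
    rw [← hs.natDegree_eq_card_roots, hg, natDegree_map]
  rw [← h3]
  have h4 : ∀ a ∈ g.roots, ‖a‖ = ‖x‖ := by
    intro a ha
    refine norm_root (F := F) x a ?_
    rw [mem_roots hmon.ne_zero, IsRoot.def, hg, eval_map] at ha
    rw [aeval_def]; exact ha
  have h5 : ‖g.roots.prod‖ = (g.roots.map (fun a => ‖a‖)).prod := by
    induction g.roots using Multiset.induction with
    | empty => simp
    | cons a s ih => simp [norm_mul, ih]
  rw [h5, Multiset.map_congr rfl h4, Multiset.map_const', Multiset.prod_replicate]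

lemma IsTame.deg (hF : IsTame p m F) (x : PadicAlgCl p)
    (h : Nat.Coprime (Module.finrank F F⟮x⟯) m) : x ∈ F := by
  refine hF.mx x fun y hy => ?_
  have : FiniteDimensional F F⟮x⟯ := adjoin.finiteDimensional (isInt x)
  have h1 : (minpoly F (⟨y, hy⟩ : F⟮x⟯)).natDegree ∣ Module.finrank F F⟮x⟯ :=
    minpoly.degree_dvd (Algebra.IsIntegral.isIntegral _)
  have h2 : minpoly F (⟨y, hy⟩ : F⟮x⟯) = minpoly F y :=
    (minpoly.algebraMap_eq (algebraMap F⟮x⟯ (PadicAlgCl p)).injective (⟨y, hy⟩ : F⟮x⟯)).symm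
  rw [h2] at h1
  have h3 : Nat.Coprime (minpoly F y).natDegree m := Nat.Coprime.coprime_dvd_left h1 h
  refine tm_of_pow h3 (tm_of_norm (x := ((minpoly F y).coeff 0 : PadicAlgCl p)) ?_
    (hF.tm _ ((minpoly F y).coeff 0).2))
  rw [norm_const, norm_pow]

lemma IsTame.wdeg (hm : 0 < m) (hF : IsTame p m F) (w : PadicAlgCl p) (h : ℤ)
    (hh : IsCoprime h (m : ℤ)) (hw : ‖w‖ ^ m = (p : ℝ) ^ h) : m ∣ (minpoly F w).natDegree := by
  set d := (minpoly F w).natDegree with hd
  have h0 : w ≠ 0 := by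
    rintro rfl
    rw [norm_zero, zero_pow hm.ne'] at hw
    exact (zpow_pos norm_pos_p h).ne hw
  have h1 := norm_const (F := F) w
  rw [← hd] at h1
  have h2 : ((minpoly F w).coeff 0 : PadicAlgCl p) ≠ 0 := by
    rw [← norm_ne_zero_iff, h1]
    exact pow_ne_zero _ (norm_ne_zero_iff.2 h0)
  rcases hF.tm _ ((minpoly F w).coeff 0).2 with h3 | ⟨e, k, he, hk⟩
  · exact absurd h3 h2
  · rw [h1] at hk
    have h4 : (p : ℝ) ^ (h * (d * e : ℕ)) = (p : ℝ) ^ (k * (m : ℕ)) := by
      rw [zpow_mul, zpow_mul, zpow_natCast, zpow_natCast, ← hw, ← hk, ← pow_mul, ← pow_mul,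
        ← pow_mul]
      congr 1; ring
    have h5 := zpow_right_injective₀ norm_pos_p one_lt_p.ne' h4
    have h6 : (m : ℤ) ∣ h * (d * e : ℕ) := ⟨k, by rw [h5]; ring⟩
    have h7 : (m : ℤ) ∣ (d * e : ℕ) := hh.symm.dvd_of_dvd_mul_left h6
    have h8 : m ∣ d * e := by exact_mod_cast h7
    exact he.symm.dvd_of_dvd_mul_right h8

/-- integral coefficients -/
def IntC (F : IntermediateField ℚ_[p] (PadicAlgCl p)) (g : F[X]) : Prop :=
  ∀ i, ‖(g.coeff i : PadicAlgCl p)‖ ≤ 1

lemma sub_max (x y : PadicAlgCl p) : ‖x - y‖ ≤ max ‖x‖ ‖y‖ := by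
  have := IsUltrametricDist.norm_add_le_max x (-y)
  rwa [norm_neg, ← sub_eq_add_neg] at this

lemma sum_le {ι : Type*} (s : Finset ι) (u : ι → PadicAlgCl p) (c : ℝ) (hc : 0 ≤ c)
    (h : ∀ i ∈ s, ‖u i‖ ≤ c) : ‖∑ i ∈ s, u i‖ ≤ c :=
  IsUltrametricDist.norm_sum_le_of_forall_le_of_nonneg hc h

lemma aeval_le (g : F[X]) (hg : IntC F g) (x : PadicAlgCl p) (hx : ‖x‖ ≤ 1) :
    ‖aeval x g‖ ≤ 1 := by
  rw [aeval_eq_sum_range]
  refine sum_le _ _ 1 zero_le_one fun i _ => ?_
  rw [Algebra.smul_def, norm_mul, norm_pow]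
  exact mul_le_one₀ (hg i) (by positivity) (pow_le_one₀ (norm_nonneg x) hx)

lemma pow_sub_le (i : ℕ) (x y : PadicAlgCl p) (hx : ‖x‖ ≤ 1) (hy : ‖y‖ ≤ 1) :
    ‖x ^ i - y ^ i‖ ≤ ‖x - y‖ := by
  rw [← (Commute.all x y).geom_sum₂_mul i, norm_mul]
  refine mul_le_of_le_one_left (norm_nonneg _) (sum_le _ _ 1 zero_le_one fun j _ => ?_)
  rw [norm_mul, norm_pow, norm_pow]
  exact mul_le_one₀ (pow_le_one₀ (norm_nonneg x) hx) (by positivity)
    (pow_le_one₀ (norm_nonneg y) hy)

lemma aeval_sub_le (g : F[X]) (hg : IntC F g) (x y : PadicAlgCl p) (hx : ‖x‖ ≤ 1)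
    (hy : ‖y‖ ≤ 1) : ‖aeval x g - aeval y g‖ ≤ ‖x - y‖ := by
  rw [aeval_eq_sum_range, aeval_eq_sum_range, ← Finset.sum_sub_distrib]
  refine sum_le _ _ _ (norm_nonneg _) fun i _ => ?_
  rw [← smul_sub, Algebra.smul_def, norm_mul]
  exact (mul_le_of_le_one_left (norm_nonneg _) (hg i)).trans (pow_sub_le i x y hx hy)

/-- a nonzero polynomial is a constant times a polynomial with integral coefficients,
one of which has norm one -/
lemma scale (g : F[X]) (hg : g ≠ 0) : ∃ (c : F) (g' : F[X]), c ≠ 0 ∧ g = C c * g' ∧ IntC F g' ∧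
    (∃ i, ‖(g'.coeff i : PadicAlgCl p)‖ = 1) ∧ g'.natDegree = g.natDegree := by
  obtain ⟨i, hi, hmax⟩ := Finset.exists_max_image (Finset.range (g.natDegree + 1))
    (fun i => ‖(g.coeff i : PadicAlgCl p)‖) ⟨0, by simp⟩
  have hmax' : ∀ j, ‖(g.coeff j : PadicAlgCl p)‖ ≤ ‖(g.coeff i : PadicAlgCl p)‖ := by
    intro j
    by_cases hj : j ∈ Finset.range (g.natDegree + 1)
    · exact hmax j hj
    · have : g.coeff j = 0 := coeff_eq_zero_of_natDegree_lt (by simpa using hj)
      rw [this]; simp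
  have hc : g.coeff i ≠ 0 := by
    intro h
    apply hg
    ext j
    have := hmax' j
    rw [h] at this
    simp only [ZeroMemClass.coe_zero, norm_zero, norm_le_zero_iff] at this
    simpa using this
  have hc' : (0 : ℝ) < ‖(g.coeff i : PadicAlgCl p)‖ := by
    rw [norm_pos_iff]; simpa using hc
  refine ⟨g.coeff i, C (g.coeff i)⁻¹ * g, hc, ?_, ?_, ⟨i, ?_⟩, ?_⟩
  · rw [← mul_assoc, ← C_mul, mul_inv_cancel₀ hc, C_1, one_mul]
  · intro j
    rw [coeff_C_mul]
    push_cast
    rw [norm_mul, norm_inv, inv_mul_le_iff₀ hc', mul_one]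
    exact hmax' j
  · rw [coeff_C_mul, inv_mul_cancel₀ hc]; simp
  · exact natDegree_C_mul (inv_ne_zero hc)

/-- the condition in the minimality argument -/
def Small (F : IntermediateField ℚ_[p] (PadicAlgCl p)) (y : PadicAlgCl p) (d : ℕ) : Prop :=
  ∃ g : F[X], g.natDegree ≤ d ∧ IntC F g ∧ (∃ i, ‖(g.coeff i : PadicAlgCl p)‖ = 1) ∧
    ‖aeval y g‖ < 1

lemma small_exists (y : PadicAlgCl p) : ∃ d, Small F y d := by
  obtain ⟨c, g', hc, he, hi, h1, hn⟩ := scale (minpoly F y) (minpoly.ne_zero (isInt y))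
  refine ⟨g'.natDegree, g', le_rfl, hi, h1, ?_⟩
  have h2 : aeval y (minpoly F y) = 0 := minpoly.aeval F y
  rw [he, map_mul, aeval_C] at h2
  rcases mul_eq_zero.1 h2 with h3 | h3
  · exact absurd ((map_eq_zero _).1 h3) hc
  · rw [h3, norm_zero]; exact zero_lt_one

/-- the residue field of a tame field is algebraically closed -/
lemma IsTame.approx (hF : IsTame p m F) (y : PadicAlgCl p) (hy : ‖y‖ ≤ 1) :
    ∃ a ∈ F, ‖y - a‖ < 1 := by
  classical
  have hex := small_exists (F := F) y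
  obtain ⟨g, hgd, hgi, ⟨i₀, hi₀⟩, hgy⟩ := Nat.find_spec hex
  set d := Nat.find hex with hd
  have hmin : ∀ e < d, ¬ Small F y e := fun e he => Nat.find_min hex he
  have hg0 : g ≠ 0 := by
    rintro rfl; simp at hi₀
  -- a root near y
  have hroot : ∃ β : PadicAlgCl p, aeval β g = 0 ∧ ‖y - β‖ < 1 := by
    by_contra hcon
    push Not at hcon
    -- the top coefficient has norm one
    have htop : ‖(g.leadingCoeff : PadicAlgCl p)‖ = 1 := by
      by_contra hne
      have hlt : ‖(g.leadingCoeff : PadicAlgCl p)‖ < 1 := lt_of_le_of_ne (hgi _) hne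
      have hii : i₀ ≠ g.natDegree := by
        rintro rfl; exact hne hi₀
      have hle : i₀ ≤ g.natDegree := by
        by_contra h
        rw [coeff_eq_zero_of_natDegree_lt (not_le.1 h)] at hi₀
        simp at hi₀
      have hpos : 0 < g.natDegree := lt_of_le_of_lt (Nat.zero_le _) (lt_of_le_of_ne hle hii)
      refine hmin (g.natDegree - 1) (by omega) ⟨g.eraseLead, eraseLead_natDegree_le g, ?_, ?_, ?_⟩
      · intro j
        by_cases hj : j = g.natDegree
        · subst hj; rw [eraseLead_coeff_natDegree]; simp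
        · rw [eraseLead_coeff_of_ne j hj]; exact hgi j
      · exact ⟨i₀, by rw [eraseLead_coeff_of_ne _ hii]; exact hi₀⟩
      · have h1 : aeval y g = aeval y g.eraseLead +
            (g.leadingCoeff : PadicAlgCl p) * y ^ g.natDegree := by
          conv_lhs => rw [← eraseLead_add_C_mul_X_pow g]
          rw [map_add, map_mul, aeval_C, map_pow, aeval_X]
          rfl
        have h2 : aeval y g.eraseLead = aeval y g -
            (g.leadingCoeff : PadicAlgCl p) * y ^ g.natDegree := by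
          rw [h1]; ring
        rw [h2]
        refine lt_of_le_of_lt (sub_max _ _) (max_lt hgy ?_)
        rw [norm_mul, norm_pow]
        exact mul_lt_one_of_nonneg_of_lt_one_left (norm_nonneg _) hlt
          (pow_le_one₀ (norm_nonneg y) hy)
    set G := g.map (algebraMap F (PadicAlgCl p)) with hG
    have hGs : G.Splits := IsAlgClosed.splits G
    have hG0 : G ≠ 0 := (Polynomial.map_ne_zero_iff (algebraMap F (PadicAlgCl p)).injective).2 hg0
    have h3 : aeval y g = G.leadingCoeff * (G.roots.map (fun a => y - a)).prod := by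
      have h4 := hGs.eval_eq_prod_roots y
      rw [← h4, hG, eval_map, aeval_def]
    have h5 : ‖G.leadingCoeff‖ = 1 := by
      rw [hG, leadingCoeff_map]; exact htop
    have h6 : ∀ s : Multiset (PadicAlgCl p), (∀ a ∈ s, 1 ≤ ‖y - a‖) →
        1 ≤ ‖(s.map (fun a => y - a)).prod‖ := by
      intro s
      induction s using Multiset.induction with
      | empty => intro _; simp
      | cons a s ih =>
        intro hs
        rw [Multiset.map_cons, Multiset.prod_cons, norm_mul]
        exact one_le_mul_of_one_le_of_one_le (hs a (Multiset.mem_cons_self a s))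
          (ih fun b hb => hs b (Multiset.mem_cons_of_mem hb))
    have h7 : 1 ≤ ‖aeval y g‖ := by
      rw [h3, norm_mul, h5, one_mul]
      refine h6 _ fun a ha => hcon a ?_
      rw [mem_roots hG0, IsRoot.def, hG, eval_map] at ha
      rw [aeval_def]; exact ha
    exact absurd hgy (not_lt.2 h7)
  obtain ⟨β, hβ, hyβ⟩ := hroot
  have hβ1 : ‖β‖ ≤ 1 := by
    have : β = y - (y - β) := by ring
    rw [this]
    exact (sub_max _ _).trans (max_le hy hyβ.le)
  refine ⟨β, hF.mx β fun z hz => ?_, hyβ⟩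
  -- elements of F(β)
  have hfin : FiniteDimensional F F⟮β⟯ := adjoin.finiteDimensional (isInt β)
  obtain ⟨c, hcz, hcd⟩ : ∃ c : F[X], aeval β c = z ∧ (c = 0 ∨ c.natDegree < d) := by
    have hz1 : z ∈ (F⟮β⟯).toSubalgebra := hz
    rw [IntermediateField.adjoin_simple_toSubalgebra_of_isAlgebraic (isInt β).isAlgebraic,
      Algebra.adjoin_singleton_eq_range_aeval] at hz1
    obtain ⟨c, hc⟩ := hz1
    replace hc : aeval β c = z := hc
    refine ⟨c %ₘ minpoly F β, ?_, ?_⟩
    · rw [← hc]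
      exact aeval_modByMonic_eq_self_of_root (minpoly.aeval F β)
    · have h8 : (minpoly F β).natDegree ≤ d := by
        refine (natDegree_le_of_dvd (minpoly.dvd F β hβ) hg0).trans hgd
      have h9 := natDegree_modByMonic_lt c (minpoly.monic (isInt β)) (minpoly.ne_one F β)
      right; omega
  rcases hcd with hcd | hcd
  · left; rw [← hcz, hcd, map_zero]
  by_cases hc0 : c = 0
  · left; rw [← hcz, hc0, map_zero]
  obtain ⟨a, c', ha, hca, hi, h1, hn⟩ := scale c hc0
  have h10 : ¬ ‖aeval y c'‖ < 1 := fun h => hmin c'.natDegree (by omega) ⟨c', le_rfl, hi, h1, h⟩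
  have h11 : ‖aeval β c'‖ = 1 := by
    have h12 : ‖aeval y c' - aeval β c'‖ < 1 := lt_of_le_of_lt (aeval_sub_le c' hi y β hy hβ1) hyβ
    have h13 : ‖aeval y c'‖ = 1 := le_antisymm (aeval_le c' hi y hy) (not_lt.1 h10)
    refine le_antisymm (aeval_le c' hi β hβ1) ?_
    by_contra h14
    have h15 : aeval y c' = (aeval y c' - aeval β c') + aeval β c' := by ring
    have h16 : ‖aeval y c'‖ < 1 := by
      rw [h15]
      exact lt_of_le_of_lt (IsUltrametricDist.norm_add_le_max _ _) (max_lt h12 (not_le.1 h14))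
    exact absurd h13 h16.ne
  refine tm_of_norm (x := (a : PadicAlgCl p)) ?_ (hF.tm _ a.2)
  rw [← hcz, hca, map_mul, aeval_C, norm_mul, h11, mul_one]
  rfl

end

end Pool.Agent.EVT
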