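import Pool.Agent.ETU.Rts
import Pool.Agent.EVT.Tame

/-! EVT (helper24): the automorphisms over a tame field; roots of unity. -/

open scoped BigOperators Polynomial
open Polynomial IntermediateField

namespace Pool.Agent.EVT

variable {p m : ℕ} [Fact p.Prime] {F : IntermediateField ℚ_[p] (PadicAlgCl p)}

lemma norm_pp : ‖((p : ℕ) : PadicAlgCl p)‖ = (p : ℝ)⁻¹ := by
  have h := PadicAlgCl.norm_extends (p := p) (p : ℚ_[p])
  rw [Padic.norm_p] at h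
  rw [← h]
  simp

lemma na_padic : Pool.Agent.ETU.NA p (PadicAlgCl p) :=
  ⟨fun x y => IsUltrametricDist.norm_add_le_max x y, by
    rw [norm_pp]
    exact inv_lt_one_of_one_lt₀ one_lt_p⟩

lemma IsTame.iner (hF : IsTame p m F) (σ : PadicAlgCl p ≃ₐ[F] PadicAlgCl p) (t : PadicAlgCl p)
    (ht : ‖t‖ ≤ 1) : ‖σ t - t‖ < 1 := by
  obtain ⟨a, ha, hta⟩ := hF.approx t ht
  have h1 : σ t - t = σ (t - a) - (t - a) := by
    have h2 : σ a = a := σ.commutes ⟨a, ha⟩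
    rw [map_sub, h2]; ring
  rw [h1]
  refine lt_of_le_of_lt (sub_max _ _) (max_lt ?_ hta)
  rw [norm_alg]; exact hta

lemma mem_of_fixed (t : PadicAlgCl p)
    (h : ∀ σ : PadicAlgCl p ≃ₐ[F] PadicAlgCl p, σ t = t) : t ∈ F := by
  have : IsGalois F (PadicAlgCl p) := ⟨⟩
  obtain ⟨l, hl⟩ := (InfiniteGalois.mem_range_algebraMap_iff_fixed (k := F) t).2 h
  rw [← hl]; exact l.2

/-- roots of unity of order prime to p -/
lemma IsTame.root_prime (hF : IsTame p m F) {ζ : PadicAlgCl p} {n : ℕ} (hn : ¬ p ∣ n)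
    (hζ : ζ ^ n = 1) : ζ ∈ F := by
  have hp : p.Prime := Fact.out
  have hn0 : n ≠ 0 := by rintro rfl; exact hn (dvd_zero p)
  refine mem_of_fixed ζ fun σ => ?_
  have hζ0 : ζ ≠ 0 := by
    rintro rfl
    rw [zero_pow hn0] at hζ
    exact zero_ne_one hζ
  have hζ1 : ‖ζ‖ = 1 := by
    have h1 : ‖ζ‖ ^ n = 1 := by rw [← norm_pow, hζ, norm_one]
    exact (pow_eq_one_iff_of_nonneg (norm_nonneg _) hn0).1 h1
  have h2 : (σ ζ / ζ) ^ n = 1 := by
    rw [div_pow, ← map_pow, hζ, map_one, div_one]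
  have h3 : ‖σ ζ / ζ - 1‖ < 1 := by
    have h4 : σ ζ / ζ - 1 = (σ ζ - ζ) / ζ := by field_simp
    rw [h4, norm_div, hζ1, div_one]
    exact hF.iner σ ζ hζ1.le
  have h5 := Pool.Agent.ETU.root_near hp na_padic hn h2 h3
  rw [div_eq_one_iff_eq hζ0] at h5
  exact h5

/-- roots of unity of order a power of p -/
lemma IsTame.root_pow (hF : IsTame p m F) (hpm : Nat.Coprime m (p * (p - 1)))
    {ζ : PadicAlgCl p} {k : ℕ} (hζ : ζ ^ p ^ k = 1) : ζ ∈ F := by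
  have hp : p.Prime := Fact.out
  obtain ⟨j, hj, hjo⟩ : ∃ j, j ≤ k ∧ orderOf ζ = p ^ j :=
    (Nat.dvd_prime_pow hp).1 (orderOf_dvd_of_pow_eq_one hζ)
  have hprim : IsPrimitiveRoot ζ (p ^ j) := by
    rw [← hjo]; exact IsPrimitiveRoot.orderOf ζ
  refine hF.deg ζ ?_
  have hne : NeZero (p ^ j) := ⟨pow_ne_zero _ hp.ne_zero⟩
  have hcyc : IsCyclotomicExtension {p ^ j} F F⟮ζ⟯ :=
    hprim.intermediateField_adjoin_isCyclotomicExtension F
  have hfin : FiniteDimensional F F⟮ζ⟯ := adjoin.finiteDimensional (isInt ζ)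
  have hgal : IsGalois F F⟮ζ⟯ := IsCyclotomicExtension.isGalois {p ^ j} F F⟮ζ⟯
  have hprim' : IsPrimitiveRoot (AdjoinSimple.gen F ζ) (p ^ j) := by
    refine IsPrimitiveRoot.of_map_of_injective (f := algebraMap F⟮ζ⟯ (PadicAlgCl p)) ?_
      (algebraMap F⟮ζ⟯ (PadicAlgCl p)).injective
    rw [AdjoinSimple.algebraMap_gen]; exact hprim
  have hinj := hprim'.autToPow_injective (K := F)
  have hdvd : Nat.card (F⟮ζ⟯ ≃ₐ[F] F⟮ζ⟯) ∣ Nat.card (ZMod (p ^ j))ˣ :=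
    Subgroup.card_dvd_of_injective _ hinj
  rw [IsGalois.card_aut_eq_finrank, Nat.card_eq_fintype_card, ZMod.card_units_eq_totient] at hdvd
  refine Nat.Coprime.coprime_dvd_left hdvd ?_
  rcases Nat.eq_zero_or_pos j with rfl | hj0
  · simp
  · rw [Nat.totient_prime_pow hp hj0]
    refine Nat.Coprime.mul_left ?_ ?_
    · exact (Nat.Coprime.pow_left _ (Nat.Coprime.coprime_mul_right_right hpm).symm)
    · exact (Nat.Coprime.coprime_mul_left_right hpm).symm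

theorem IsTame.root (hF : IsTame p m F) (hpm : Nat.Coprime m (p * (p - 1)))
    {ζ : PadicAlgCl p} {n : ℕ} (hn : 0 < n) (hζ : ζ ^ n = 1) : ζ ∈ F := by
  have hp : p.Prime := Fact.out
  obtain ⟨k, n', hn', hnk⟩ := Nat.exists_eq_pow_mul_and_not_dvd hn.ne' p hp.ne_one
  have h1 : ζ ^ n' ∈ F := hF.root_pow hpm (k := k) (by
    rw [← pow_mul, mul_comm, ← hnk]; exact hζ)
  have h2 : ζ ^ p ^ k ∈ F := hF.root_prime hn' (by
    rw [← pow_mul, ← hnk]; exact hζ)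
  have hcop : IsCoprime ((n' : ℕ) : ℤ) ((p ^ k : ℕ) : ℤ) := by
    rw [Nat.isCoprime_iff_coprime]
    exact (Nat.Coprime.pow_left k ((Nat.Prime.coprime_iff_not_dvd hp).2 hn')).symm
  obtain ⟨u, v, huv⟩ := hcop
  have hζ0 : ζ ≠ 0 := by
    rintro rfl
    rw [zero_pow hn.ne'] at hζ
    exact zero_ne_one hζ
  have h3 : ζ = (ζ ^ n') ^ u * (ζ ^ p ^ k) ^ v := by
    rw [← zpow_natCast ζ n', ← zpow_natCast ζ (p ^ k), ← zpow_mul, ← zpow_mul, ← zpow_add₀ hζ0]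
    have : (n' : ℤ) * u + ((p ^ k : ℕ) : ℤ) * v = 1 := by rw [← huv]; ring
    rw [this, zpow_one]
  rw [h3]
  exact mul_mem (zpow_mem h1 u) (zpow_mem h2 v)

end Pool.Agent.EVT
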