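import Pool.Agent.EVT.FixC

/-! EVT (helper24): irreducibility of E(alpha, Y) over a good point, for every m prime to
p (p - 1), with an additional condition Dc on the points. -/

open scoped BigOperators Polynomial
open Polynomial

namespace Pool.Agent.EVT

open Pool.Agent.ETU

/-- over the points with norm one where also `D` has norm one the roots of `E(α, Y)` have
valuations `h / m`, `h` prime to `m` -/
def RamC (p m : ℕ) [Fact p.Prime] (D : ℤ[X]) (E : ℚ[X][X]) : Prop :=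
  ∀ α w : PadicAlgCl p, ‖α‖ = 1 → ‖aeval α D‖ = 1 → ev2 α w E = 0 →
    ∃ h : ℤ, IsCoprime h (m : ℤ) ∧ ‖w‖ ^ m = (p : ℝ) ^ h

variable {r : ℕ}

private theorem IrrC_dvd {M : Type} [Field M] [CharZero M] {P : ℚ[X]} (hP : Irreducible P) {α : M}
    (hα : aeval α P = 0) {Q : ℚ[X]} (hQ : aeval α Q = 0) : P ∣ Q := by
  by_contra hn
  obtain ⟨u, v, huv⟩ := (hP.coprime_iff_not_dvd).2 hn
  have h := congrArg (aeval α) huv
  rw [map_add, map_mul, map_mul, hα, hQ, mul_zero, mul_zero, add_zero, map_one] at h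
  exact zero_ne_one h

private theorem IrrC_int {M : Type} [Field M] [CharZero M] (α : M) (Q : ℤ[X]) :
    aeval α (Q.map (Int.castRingHom ℚ)) = aeval α Q := by
  have h := Polynomial.aeval_map_algebraMap ℚ α Q
  exact h

/-- a root with valuation `h / m` over a point of the tame field is not a root of a nonzero
polynomial of degree `< m` with coefficients in the tame field -/
theorem IsTame.zero_of_root {p m : ℕ} [Fact p.Prime] (hm : 0 < m)
    {F : IntermediateField ℚ_[p] (PadicAlgCl p)} (hF : IsTame p m F) {α w : PadicAlgCl p}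
    (hα : α ∈ F) {h : ℤ} (hh : IsCoprime h (m : ℤ)) (hw : ‖w‖ ^ m = (p : ℝ) ^ h) (R : ℚ[X][X])
    (hR : R.natDegree < m) (hRw : ev2 α w R = 0) (i : ℕ) : aeval α (R.coeff i) = 0 := by
  set α' : F := ⟨α, hα⟩ with hα'
  set φ : ℚ[X] →+* F := (aeval α' : ℚ[X] →ₐ[ℚ] F).toRingHom with hφ
  have hcomp : (algebraMap F (PadicAlgCl p)).comp φ =
      (aeval α : ℚ[X] →ₐ[ℚ] PadicAlgCl p).toRingHom := by
    refine Polynomial.ringHom_ext (fun q => ?_) ?_
    · simp [hφ]
    · simp only [hφ, RingHom.comp_apply, AlgHom.toRingHom_eq_coe, RingHom.coe_coe, aeval_X]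
      rfl
  have h1 : aeval w (R.map φ) = 0 := by
    rw [Polynomial.aeval_def, eval₂_map, hcomp]
    exact hRw
  have h0 : R.map φ = 0 := by
    by_contra hne
    have h2 := hF.wdeg hm w h hh hw
    have h3 : (minpoly F w).natDegree ≤ (R.map φ).natDegree :=
      natDegree_le_of_dvd (minpoly.dvd F w h1) hne
    have h4 := natDegree_map_le (f := φ) (p := R)
    have h5 : 0 < (minpoly F w).natDegree := minpoly.natDegree_pos (isInt w)
    have h6 := Nat.le_of_dvd h5 h2
    omega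
  have h7 : φ (R.coeff i) = 0 := by
    rw [← coeff_map, h0, coeff_zero]
  have h8 := congrArg (algebraMap F (PadicAlgCl p)) h7
  rw [← RingHom.comp_apply, hcomp, map_zero] at h8
  exact h8

theorem IsTame.mem_good {p m : ℕ} [Fact p.Prime] (hpm : Nat.Coprime m (p * (p - 1)))
    {F : IntermediateField ℚ_[p] (PadicAlgCl p)} (hF : IsTame p m F)
    (f : Fin r → ℤ[X]) (a : Fin r → ℤ) {α : PadicAlgCl p} {n : ℕ} (hn : 0 < n)
    (hrel : (aeval α (Ap f a)) ^ n = (aeval α (Ap f (-a))) ^ n) (hg : Good f a α) : α ∈ F := by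
  refine mem_of_fixed α fun σ => ?_
  refine fix_core (σ := σ.toRingEquiv) na_padic f a hn hrel hg (fun t ht => hF.iner σ t ht) ?_
  intro ζ k hk hζ
  exact σ.commutes ⟨ζ, hF.root hpm hk hζ⟩

theorem good_irrC {p m : ℕ} [Fact p.Prime] (hm : 0 < m) (hpm : Nat.Coprime m (p * (p - 1)))
    {D : ℤ[X]} {E : ℚ[X][X]} (hE : RamC p m D E) (f : Fin r → ℤ[X]) (a : Fin r → ℤ) {P : ℚ[X]}
    (hP : Irreducible P) (hrel : Rel f a P) {α : PadicAlgCl p} (hα : aeval α P = 0)
    (hg : Good f a α) (hD : ‖aeval α D‖ = 1) (R : ℚ[X][X]) (hR : R.natDegree < m)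
    (w : PadicAlgCl p) (hw : ev2 α w E = 0) (hRw : ev2 α w R = 0) : ∀ i, P ∣ R.coeff i := by
  obtain ⟨F, hF⟩ := exists_tame p m
  obtain ⟨h, hh, hwn⟩ := hE α w hg.1 hD hw
  obtain ⟨n, hn, hPn⟩ := hrel
  have hrel2 : (aeval α (Ap f a)) ^ n = (aeval α (Ap f (-a))) ^ n := by
    obtain ⟨S, hS⟩ := hPn
    have h1 := congrArg (aeval α) hS
    rw [map_mul, hα, zero_mul, IrrC_int, map_sub, map_pow, map_pow] at h1
    exact sub_eq_zero.1 h1
  have hαF := hF.mem_good hpm f a hn hrel2 hg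
  exact fun i => IrrC_dvd hP hα (hF.zero_of_root hm hαF hh hwn R hR hRw i)

end Pool.Agent.EVT
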