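import Pool.Agent.ETU.Pol

/-! EVT (helper24): truncations of products of powers of 1 - a X; Vandermonde modulo p. -/

open scoped BigOperators Polynomial
open Polynomial

namespace Pool.Agent.EVT

open Pool.Agent.ETU

/-- truncated division by a polynomial with constant coefficient one -/
theorem trunc_exists (A B : ℤ[X]) (hB : B.coeff 0 = 1) (m : ℕ) :
    ∃ T R : ℤ[X], (∀ l, m ≤ l → T.coeff l = 0) ∧ A = B * T + X ^ m * R := by
  induction m with
  | zero => exact ⟨0, A, by simp, by simp⟩
  | succ m ih =>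
    obtain ⟨T, R, hT, hA⟩ := ih
    refine ⟨T + C (R.coeff 0) * X ^ m, divX R - C (R.coeff 0) * divX B, ?_, ?_⟩
    · intro l hl
      rw [coeff_add, coeff_C_mul, coeff_X_pow, hT l (by omega), if_neg (by omega)]
      simp
    · have h1 : divX R * X + C (R.coeff 0) = R := divX_mul_X_add R
      have h2 : divX B * X + C (1 : ℤ) = B := by
        have := divX_mul_X_add B
        rwa [hB] at this
      rw [C_1] at h2
      rw [hA]
      have h3 : B * (T + C (R.coeff 0) * X ^ m) +
          X ^ (m + 1) * (divX R - C (R.coeff 0) * divX B) =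
          B * T + X ^ m * (C (R.coeff 0) * (B - divX B * X) + divX R * X) := by ring
      rw [h3]
      have h4 : B - divX B * X = 1 := by linear_combination (-1 : ℤ[X]) * h2
      rw [h4, mul_one, add_comm (C (R.coeff 0)), h1]

variable {n : ℕ}

/-- the polynomials `1 - a_i X` -/
noncomputable def gv (a : Fin n → ℤ) (i : Fin n) : ℤ[X] := 1 - C (a i) * X

lemma gv_coeff_zero (a : Fin n → ℤ) (i : Fin n) : (gv a i).coeff 0 = 1 := by
  simp [gv]

lemma gv_coeff_one (a : Fin n → ℤ) (i : Fin n) : (gv a i).coeff 1 = - a i := by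
  simp [gv, coeff_one]

lemma gv_natDegree (a : Fin n → ℤ) (i : Fin n) : (gv a i).natDegree ≤ 1 := by
  unfold gv
  refine (natDegree_sub_le _ _).trans ?_
  simp only [natDegree_one, zero_le, sup_of_le_right]
  exact (natDegree_C_mul_le _ _).trans natDegree_X_le

lemma gv_derivative (a : Fin n → ℤ) (i : Fin n) : derivative (gv a i) = C (- a i) := by
  simp [gv]

lemma Ap_coeff_zero (a : Fin n → ℤ) (u : Fin n → ℤ) : (Ap (gv a) u).coeff 0 = 1 := by
  rw [coeff_zero_eq_eval_zero]
  unfold Ap
  rw [eval_prod]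
  refine Finset.prod_eq_one fun i _ => ?_
  rw [eval_pow, ← coeff_zero_eq_eval_zero, gv_coeff_zero, one_pow]

lemma Np_gv_coeff (a u : Fin n → ℤ) (hu : ∑ i, u i = 0) (l : ℕ) (hl : n ≤ l + 1) :
    (Np (gv a) u).coeff l = 0 := by
  classical
  unfold Np
  rw [finsetSum_coeff]
  have key : ∀ i : Fin n, (C (u i) * derivative (gv a i) *
      ∏ j ∈ Finset.univ.erase i, gv a j).coeff l = if n = l + 1 then (∏ j, (- a j)) * u i else 0 := by
    intro i
    rw [gv_derivative, ← C_mul, coeff_C_mul]
    have hcard : (Finset.univ.erase i : Finset (Fin n)).card = n - 1 := by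
      rw [Finset.card_erase_of_mem (Finset.mem_univ i), Finset.card_univ, Fintype.card_fin]
    have hn : 0 < n := Fin.pos i
    split_ifs with h
    · have h1 : l = (Finset.univ.erase i : Finset (Fin n)).card * 1 := by rw [hcard]; omega
      rw [h1, coeff_prod_of_natDegree_le _ _ 1 (fun j _ => gv_natDegree a j)]
      have h2 : ∏ j ∈ Finset.univ.erase i, (gv a j).coeff 1 =
          ∏ j ∈ Finset.univ.erase i, (- a j) :=
        Finset.prod_congr rfl fun j _ => gv_coeff_one a j
      rw [h2, ← Finset.mul_prod_erase Finset.univ (fun j => - a j) (Finset.mem_univ i)]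
      ring
    · have h1 : (∏ j ∈ Finset.univ.erase i, gv a j).natDegree ≤ n - 1 := by
        refine (natDegree_prod_le _ _).trans ?_
        refine (Finset.sum_le_card_nsmul _ _ 1 (fun j _ => gv_natDegree a j)).trans ?_
        rw [hcard]; simp
      rw [coeff_eq_zero_of_natDegree_lt (by omega), mul_zero]
  rw [Finset.sum_congr rfl fun i _ => key i]
  split_ifs with h
  · rw [← Finset.mul_sum, hu, mul_zero]
  · simp

/-- Vandermonde -/
lemma Np_gv_ne {p : ℕ} [Fact p.Prime] {a u : Fin n → ℤ}
    (ha : ∀ i j, i ≠ j → ¬ (p : ℤ) ∣ a i - a j) (hu : ∑ i, u i = 0)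
    (h0 : (Np (gv a) u).map (Int.castRingHom (ZMod p)) = 0) (i : Fin n) : (p : ℤ) ∣ u i := by
  classical
  have hne : ∀ i j, i ≠ j → (a i : ZMod p) ≠ (a j : ZMod p) := by
    intro i j hij h
    apply ha i j hij
    rw [← ZMod.intCast_zmod_eq_zero_iff_dvd]
    push_cast
    rw [h, sub_self]
  have hA : ∀ i, (a i : ZMod p) ≠ 0 → (u i : ZMod p) = 0 := by
    intro i hi
    have h1 := congrArg (eval ((a i : ZMod p)⁻¹)) h0
    unfold Np at h1
    rw [Polynomial.map_sum, eval_finsetSum, eval_zero] at h1
    rw [Finset.sum_eq_single i] at h1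
    · rw [Polynomial.map_mul, Polynomial.map_mul, gv_derivative, Polynomial.map_C,
        Polynomial.map_C, Polynomial.map_prod, eval_mul, eval_mul, eval_C, eval_C, eval_prod] at h1
      rcases mul_eq_zero.1 h1 with h2 | h2
      · rcases mul_eq_zero.1 h2 with h3 | h3
        · simpa using h3
        · exfalso
          apply hi
          simpa using h3
      · exfalso
        obtain ⟨j, hj, hj0⟩ := Finset.prod_eq_zero_iff.1 h2
        have hji : j ≠ i := Finset.ne_of_mem_erase hj
        simp only [gv, Polynomial.map_sub, Polynomial.map_one, Polynomial.map_mul,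
          Polynomial.map_C, Polynomial.map_X, eval_sub, eval_one, eval_mul, eval_C, eval_X] at hj0
        rw [eq_intCast] at hj0
        apply hne j i hji
        have h4 : (a j : ZMod p) * (a i : ZMod p)⁻¹ = 1 := (sub_eq_zero.1 hj0).symm
        calc (a j : ZMod p) = (a j : ZMod p) * (a i : ZMod p)⁻¹ * (a i : ZMod p) := by
              rw [mul_assoc, inv_mul_cancel₀ hi, mul_one]
          _ = (a i : ZMod p) := by rw [h4, one_mul]
    · intro k _ hki
      rw [Polynomial.map_mul, Polynomial.map_prod, eval_mul, eval_prod]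
      have : ∏ j ∈ Finset.univ.erase k, eval ((a i : ZMod p)⁻¹)
          ((gv a j).map (Int.castRingHom (ZMod p))) = 0 := by
        refine Finset.prod_eq_zero (Finset.mem_erase.2 ⟨hki.symm, Finset.mem_univ i⟩) ?_
        simp only [gv, Polynomial.map_sub, Polynomial.map_one, Polynomial.map_mul,
          Polynomial.map_C, Polynomial.map_X, eval_sub, eval_one, eval_mul, eval_C, eval_X]
        rw [eq_intCast, mul_inv_cancel₀ hi, sub_self]
      rw [this, mul_zero]
    · intro h; exact absurd (Finset.mem_univ i) h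
  have hB : (u i : ZMod p) = 0 := by
    by_cases hi : (a i : ZMod p) = 0
    · have h1 : ∀ k, k ≠ i → (u k : ZMod p) = 0 := by
        intro k hk
        refine hA k fun h => hne k i hk ?_
        rw [h, hi]
      have h2 : ((∑ k, u k : ℤ) : ZMod p) = 0 := by rw [hu]; simp
      push_cast at h2
      rwa [Finset.sum_eq_single i (fun k _ hk => h1 k hk)
        (fun h => absurd (Finset.mem_univ i) h)] at h2
    · exact hA i hi
  rwa [ZMod.intCast_zmod_eq_zero_iff_dvd] at hB

/-- some coefficient of the truncation is prime to p -/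
theorem trunc_unit {p m : ℕ} [hp : Fact p.Prime] (hnm : n ≤ m) {a u : Fin n → ℤ}
    (ha : ∀ i j, i ≠ j → ¬ (p : ℤ) ∣ a i - a j) (hu : ∑ i, u i = 0) {i₀ : Fin n}
    (hi₀ : ¬ (p : ℤ) ∣ u i₀) {T R : ℤ[X]} (hT : ∀ l, m ≤ l → T.coeff l = 0)
    (hA : Ap (gv a) u = Ap (gv a) (-u) * T + X ^ m * R) :
    T.coeff 0 = 1 ∧ ∃ l, 0 < l ∧ l < m ∧ ¬ (p : ℤ) ∣ T.coeff l := by
  have hm : 0 < m := lt_of_lt_of_le (Fin.pos i₀) hnm
  have hT0 : T.coeff 0 = 1 := by
    have h1 := congrArg (fun q => coeff q 0) hA
    simp only [coeff_add, mul_coeff_zero, Ap_coeff_zero, one_mul, coeff_X_pow] at h1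
    rw [if_neg (by omega)] at h1
    linarith
  refine ⟨hT0, ?_⟩
  by_contra hcon
  push Not at hcon
  set φ := Int.castRingHom (ZMod p) with hφ
  have hTp : T.map φ = 1 := by
    ext l
    rw [coeff_map, coeff_one]
    rcases Nat.eq_zero_or_pos l with rfl | hl
    · rw [hT0]; simp
    · rw [if_neg (by omega)]
      by_cases hlm : l < m
      · have := hcon l hl hlm
        rw [hφ, eq_intCast, ZMod.intCast_zmod_eq_zero_iff_dvd]
        exact this
      · rw [hT l (by omega)]; simp
  set A := (Ap (gv a) u).map φ with hAd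
  set B := (Ap (gv a) (-u)).map φ with hBd
  have hAB : A = B + X ^ m * R.map φ := by
    rw [hAd, hA, Polynomial.map_add, Polynomial.map_mul, hTp, mul_one, Polynomial.map_mul,
      Polynomial.map_pow, Polynomial.map_X]
  obtain ⟨m', rfl⟩ : ∃ m', m = m' + 1 := ⟨m - 1, by omega⟩
  have hlog := congrArg (Polynomial.map φ) (Ap_log (gv a) u)
  rw [Polynomial.map_mul, Polynomial.map_mul, Polynomial.map_mul, Polynomial.map_sub,
    Polynomial.map_mul, Polynomial.map_mul, ← derivative_map, ← derivative_map, ← hAd,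
    ← hBd] at hlog
  have hW : X ^ m' ∣ derivative A * B - A * derivative B := by
    rw [hAB, derivative_add, derivative_mul, derivative_X_pow]
    have e : m' + 1 - 1 = m' := by omega
    rw [e]
    refine ⟨(C ((m' + 1 : ℕ) : ZMod p) * R.map φ + X * derivative (R.map φ)) * B -
      X * R.map φ * derivative B, ?_⟩
    ring
  have hd : X ^ m' ∣ A * B * (Np (gv a) u).map φ := by
    rw [← hlog]
    exact Dvd.dvd.mul_right hW _
  have hcop : IsCoprime (X ^ m' : (ZMod p)[X]) (A * B) := by
    refine IsCoprime.pow_left ?_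
    have h1 : (A * B).coeff 0 = 1 := by
      rw [mul_coeff_zero, hAd, hBd, coeff_map, coeff_map, Ap_coeff_zero, Ap_coeff_zero]
      simp
    refine ⟨-divX (A * B), 1, ?_⟩
    have h2 := divX_mul_X_add (A * B)
    rw [h1, C_1] at h2
    linear_combination (-1 : (ZMod p)[X]) * h2
  have hN : X ^ m' ∣ (Np (gv a) u).map φ := hcop.dvd_of_dvd_mul_left hd
  have hN0 : (Np (gv a) u).map φ = 0 := by
    rw [X_pow_dvd_iff] at hN
    ext l
    rw [coeff_zero]
    by_cases hl : l < m'
    · exact hN l hl
    · rw [coeff_map, Np_gv_coeff a u hu l (by omega), map_zero]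
  exact hi₀ (Np_gv_ne ha hu hN0 i₀)

end Pool.Agent.EVT
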