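import Pool.Agent.EVT.Roots
import Pool.Agent.EVT.VanP

/-! EVT (helper24): p-adic estimates for step 5 of part (B). -/

open scoped BigOperators Polynomial
open Polynomial IntermediateField

namespace Pool.Agent.EVT

open Pool.Agent.ETU

variable {p : ℕ} [Fact p.Prime]

lemma sum_lt {ι : Type*} (s : Finset ι) (u : ι → PadicAlgCl p) {c : ℝ} (hc : 0 < c)
    (h : ∀ i ∈ s, ‖u i‖ < c) : ‖∑ i ∈ s, u i‖ < c := by
  refine Finset.sum_induction u (fun t => ‖t‖ < c) (fun a b ha hb => ?_) (by simpa using hc) h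
  exact lt_of_le_of_lt (IsUltrametricDist.norm_add_le_max a b) (max_lt ha hb)

lemma norm_add_of_lt {x y : PadicAlgCl p} (h : ‖y‖ < ‖x‖) : ‖x + y‖ = ‖x‖ := by
  rw [IsUltrametricDist.norm_add_eq_max_of_norm_ne_norm h.ne', max_eq_left h.le]

/-- the largest term gives the norm of the sum -/
lemma sum_max {ι : Type*} [DecidableEq ι] (s : Finset ι) (u : ι → PadicAlgCl p)
    (hd : ∀ i ∈ s, ∀ j ∈ s, i ≠ j → u i ≠ 0 → ‖u i‖ ≠ ‖u j‖) {i₁ : ι} (h₁ : i₁ ∈ s)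
    (h₁' : u i₁ ≠ 0) :
    ∃ i ∈ s, u i ≠ 0 ∧ ‖∑ j ∈ s, u j‖ = ‖u i‖ ∧ ‖u i₁‖ ≤ ‖u i‖ := by
  obtain ⟨i, hi, hmax⟩ := Finset.exists_max_image s (fun i => ‖u i‖) ⟨i₁, h₁⟩
  have h2 : ‖u i₁‖ ≤ ‖u i‖ := hmax i₁ h₁
  have h3 : 0 < ‖u i‖ := lt_of_lt_of_le (norm_pos_iff.2 h₁') h2
  have h4 : u i ≠ 0 := norm_pos_iff.1 h3
  refine ⟨i, hi, h4, ?_, h2⟩
  rw [← Finset.add_sum_erase s u hi]
  refine norm_add_of_lt (sum_lt _ _ h3 fun j hj => ?_)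
  have hji := Finset.ne_of_mem_erase hj
  have hjs := Finset.mem_of_mem_erase hj
  exact lt_of_le_of_ne (hmax j hjs) fun h => hd i hi j hjs hji.symm h4 h.symm

lemma aeval_int_le (P : ℤ[X]) {y : PadicAlgCl p} (hy : ‖y‖ ≤ 1) : ‖aeval y P‖ ≤ 1 := by
  rw [aeval_eq_sum_range]
  refine sum_le _ _ 1 zero_le_one fun i _ => ?_
  rw [zsmul_eq_mul, norm_mul, norm_pow]
  refine mul_le_one₀ ?_ (by positivity) (pow_le_one₀ (norm_nonneg y) hy)
  exact IsUltrametricDist.norm_intCast_le_one _ _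

lemma aeval_unit (B : ℤ[X]) (hB : B.coeff 0 = 1) {y : PadicAlgCl p} (hy : ‖y‖ < 1) :
    ‖aeval y B‖ = 1 := by
  have h1 := congrArg (aeval y) (divX_mul_X_add B)
  rw [hB, map_add, map_mul, aeval_X, C_1, map_one, add_comm] at h1
  rw [← h1, norm_add_of_lt, norm_one]
  rw [norm_mul, norm_one]
  exact mul_lt_one_of_nonneg_of_lt_one_right (aeval_int_le _ hy.le) (norm_nonneg _) hy

lemma int_norm (c : ℤ) (hc : c ≠ 0) : ∃ v : ℕ, ‖(c : PadicAlgCl p)‖ = (p : ℝ) ^ (-(v : ℤ)) := by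
  have h := PadicAlgCl.norm_extends (p := p) (c : ℚ_[p])
  have h1 : ((c : ℚ_[p]) : PadicAlgCl p) = (c : PadicAlgCl p) := by simp
  have h2 : (c : ℚ_[p]) ≠ 0 := by exact_mod_cast hc
  refine ⟨(c : ℚ_[p]).valuation.toNat, ?_⟩
  have h3 : 0 ≤ (c : ℚ_[p]).valuation := by
    rw [← Padic.norm_le_one_iff_val_nonneg]
    exact Padic.norm_int_le_one c
  rw [Int.toNat_of_nonneg h3, ← Padic.norm_eq_zpow_neg_valuation h2, ← h]
  simp

lemma int_norm_one (c : ℤ) (hc : ¬ (p : ℤ) ∣ c) : ‖(c : PadicAlgCl p)‖ = 1 := by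
  have h := PadicAlgCl.norm_extends (p := p) (c : ℚ_[p])
  have h3 : ‖(c : ℚ_[p])‖ = 1 := by
    refine le_antisymm (Padic.norm_int_le_one c) ?_
    by_contra h4
    exact hc ((Padic.norm_intCast_lt_one_iff).1 (not_le.1 h4))
  rw [← h3, ← h]
  simp

/-- step 5, the estimate: the value of `h(y₁) / h(y₀) - 1` is not in `1/m` times the integers
prime to the denominator -/
theorem van_est {m : ℕ} {n : ℕ} (hnm : n ≤ m) {a u : Fin n → ℤ}
    (ha : ∀ i j, i ≠ j → ¬ (p : ℤ) ∣ a i - a j) (hu : ∑ i, u i = 0) {i₀ : Fin n}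
    (hi₀ : ¬ (p : ℤ) ∣ u i₀) {v : ℤ} (hv : IsCoprime v (m : ℤ)) (hv0 : 0 < v)
    {y₀ y₁ : PadicAlgCl p} (hy₀ : ‖y₀‖ ^ m = (p : ℝ) ^ (-v)) (hy₁ : ‖y₁‖ = ‖y₀‖)
    (hη : ∀ l, 0 < l → l < m → ‖y₁ ^ l - y₀ ^ l‖ = ‖y₀‖ ^ l) :
    ∃ s : ℤ, ¬ (m : ℤ) ∣ s ∧
      ‖aeval y₁ (Ap (gv a) u) / aeval y₁ (Ap (gv a) (-u)) -
        aeval y₀ (Ap (gv a) u) / aeval y₀ (Ap (gv a) (-u))‖ ^ m = (p : ℝ) ^ s := by
  classical
  have hm : 0 < m := lt_of_lt_of_le (Fin.pos i₀) hnm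
  have hp0 : (0 : ℝ) < p := norm_pos_p
  have hp1 : (1 : ℝ) < p := one_lt_p
  have hρ0 : 0 < ‖y₀‖ := by
    rcases (norm_nonneg y₀).lt_or_eq with h | h
    · exact h
    · exfalso
      rw [← h, zero_pow hm.ne'] at hy₀
      exact (zpow_pos hp0 _).ne hy₀
  have hρ1 : ‖y₀‖ < 1 := by
    by_contra h
    have h1 : 1 ≤ ‖y₀‖ ^ m := one_le_pow₀ (not_lt.1 h)
    rw [hy₀, zpow_neg] at h1
    have h2 : 1 < (p : ℝ) ^ v := one_lt_zpow₀ hp1 hv0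
    have h3 : ((p : ℝ) ^ v)⁻¹ < 1 := inv_lt_one_of_one_lt₀ h2
    linarith
  obtain ⟨T, R, hT, hA⟩ := trunc_exists (Ap (gv a) u) (Ap (gv a) (-u)) (Ap_coeff_zero a (-u)) m
  obtain ⟨hT0, l₁, hl₁, hl₁m, hl₁p⟩ := trunc_unit hnm ha hu hi₀ hT hA
  -- the value at a small `y`
  have hval : ∀ y : PadicAlgCl p, ‖y‖ < 1 → ∃ r : PadicAlgCl p, ‖r‖ ≤ 1 ∧
      aeval y (Ap (gv a) u) / aeval y (Ap (gv a) (-u)) = aeval y T + y ^ m * r := by
    intro y hy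
    have hB := aeval_unit (Ap (gv a) (-u)) (Ap_coeff_zero a (-u)) hy
    have hB0 : aeval y (Ap (gv a) (-u)) ≠ 0 := by
      intro h; rw [h, norm_zero] at hB; exact zero_ne_one hB
    refine ⟨aeval y R / aeval y (Ap (gv a) (-u)), ?_, ?_⟩
    · rw [norm_div, hB, div_one]; exact aeval_int_le R hy.le
    · have h1 := congrArg (aeval y) hA
      rw [map_add, map_mul, map_mul, map_pow, aeval_X] at h1
      rw [h1]
      field_simp
  obtain ⟨r₀, hr₀, he₀⟩ := hval y₀ hρ1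
  obtain ⟨r₁, hr₁, he₁⟩ := hval y₁ (by rw [hy₁]; exact hρ1)
  rw [he₀, he₁]
  -- the difference of the truncations
  set c : ℕ → PadicAlgCl p := fun l => (T.coeff l : PadicAlgCl p) * (y₁ ^ l - y₀ ^ l) with hc
  have hTm : T.natDegree < m := by
    by_contra h
    have h1 := hT T.natDegree (not_lt.1 h)
    rw [coeff_natDegree, leadingCoeff_eq_zero] at h1
    rw [h1] at hT0
    simp at hT0
  have hdiff : aeval y₁ T - aeval y₀ T = ∑ l ∈ Finset.range m, c l := by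
    rw [aeval_eq_sum_range' hTm, aeval_eq_sum_range' hTm, ← Finset.sum_sub_distrib]
    refine Finset.sum_congr rfl fun l _ => ?_
    rw [hc, zsmul_eq_mul, zsmul_eq_mul]
    ring
  have hcn : ∀ l, 0 < l → l < m → ‖c l‖ = ‖(T.coeff l : PadicAlgCl p)‖ * ‖y₀‖ ^ l := by
    intro l h1 h2
    rw [hc]
    simp only
    rw [norm_mul, hη l h1 h2]
  have hc0 : c 0 = 0 := by rw [hc]; simp
  have hcval : ∀ l, l < m → c l ≠ 0 → 0 < l ∧
      ∃ w : ℕ, ‖c l‖ ^ m = (p : ℝ) ^ (-((m : ℤ) * w + l * v)) := by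
    intro l hl hcl
    have hl0 : 0 < l := by
      rcases Nat.eq_zero_or_pos l with h | h
      · rw [h] at hcl; exact absurd hc0 hcl
      · exact h
    have hTl : T.coeff l ≠ 0 := by
      intro h; apply hcl; rw [hc]; simp [h]
    obtain ⟨w, hw⟩ := int_norm (p := p) (T.coeff l) hTl
    refine ⟨hl0, w, ?_⟩
    rw [hcn l hl0 hl, mul_pow, hw, ← pow_mul, mul_comm l m, pow_mul, hy₀, ← zpow_natCast,
      ← zpow_natCast, ← zpow_mul, ← zpow_mul, ← zpow_add₀ hp0.ne']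
    congr 1
    ring
  have hdist : ∀ i ∈ Finset.range m, ∀ j ∈ Finset.range m, i ≠ j → c i ≠ 0 → ‖c i‖ ≠ ‖c j‖ := by
    intro i hi j hj hij hci heq
    have hcj : c j ≠ 0 := by
      rw [← norm_ne_zero_iff, ← heq, norm_ne_zero_iff]; exact hci
    obtain ⟨-, w, hw⟩ := hcval i (Finset.mem_range.1 hi) hci
    obtain ⟨-, w', hw'⟩ := hcval j (Finset.mem_range.1 hj) hcj
    rw [heq, hw'] at hw
    have h1 := zpow_right_injective₀ hp0 hp1.ne' hw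
    have h2 : (m : ℤ) ∣ ((i : ℤ) - j) * v := ⟨(w' : ℤ) - w, by linarith⟩
    have h3 : (m : ℤ) ∣ (i : ℤ) - j := hv.symm.dvd_of_dvd_mul_right h2
    have hi' := Finset.mem_range.1 hi
    have hj' := Finset.mem_range.1 hj
    have h4 : (i : ℤ) - j = 0 := Int.eq_zero_of_abs_lt_dvd h3 (by
      rw [abs_lt]; constructor <;> omega)
    apply hij; omega
  have hc1 : c l₁ ≠ 0 := by
    rw [← norm_ne_zero_iff, hcn l₁ hl₁ hl₁m, int_norm_one _ hl₁p, one_mul]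
    exact (pow_pos hρ0 _).ne'
  obtain ⟨l, hlm, hcl, hsum, hle⟩ := sum_max (Finset.range m) c hdist
    (Finset.mem_range.2 hl₁m) hc1
  obtain ⟨hl0, w, hw⟩ := hcval l (Finset.mem_range.1 hlm) hcl
  have hbig : ‖y₀‖ ^ m < ‖c l‖ := by
    refine lt_of_lt_of_le ?_ hle
    rw [hcn l₁ hl₁ hl₁m, int_norm_one _ hl₁p, one_mul]
    exact pow_lt_pow_right_of_lt_one₀ hρ0 hρ1 hl₁m
  have hrest : ‖y₁ ^ m * r₁ - y₀ ^ m * r₀‖ ≤ ‖y₀‖ ^ m := by
    refine (sub_max _ _).trans (max_le ?_ ?_)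
    · rw [norm_mul, norm_pow, hy₁]
      exact mul_le_of_le_one_right (by positivity) hr₁
    · rw [norm_mul, norm_pow]
      exact mul_le_of_le_one_right (by positivity) hr₀
  have hfin : ‖aeval y₁ T + y₁ ^ m * r₁ - (aeval y₀ T + y₀ ^ m * r₀)‖ = ‖c l‖ := by
    have e : aeval y₁ T + y₁ ^ m * r₁ - (aeval y₀ T + y₀ ^ m * r₀) =
        (∑ l ∈ Finset.range m, c l) + (y₁ ^ m * r₁ - y₀ ^ m * r₀) := by
      rw [← hdiff]; ring
    rw [e, norm_add_of_lt, hsum]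
    rw [hsum]
    exact lt_of_le_of_lt hrest hbig
  refine ⟨-((m : ℤ) * w + l * v), ?_, by rw [hfin, hw]⟩
  intro h
  have h1 : (m : ℤ) ∣ (m : ℤ) * w + l * v := (dvd_neg).1 h
  have h2 : (m : ℤ) ∣ (l : ℤ) * v := (dvd_add_right (dvd_mul_right _ _)).1 h1
  have h3 : (m : ℤ) ∣ (l : ℤ) := hv.symm.dvd_of_dvd_mul_right h2
  have h4 : m ∣ l := by exact_mod_cast h3
  have h5 := Nat.le_of_dvd hl0 h4
  have h6 := Finset.mem_range.1 hlm
  omega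

end Pool.Agent.EVT
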