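import Pool.Agent.EVT.IrrC
import Pool.Agent.EVT.VanQ

/-! EVT (helper24): the equation of the curve w + 1/w = c ∏ (x - a i)^(e i) + κ over ℚ(w), monic in
Y = w x, and its ramification over the good points. -/

open scoped BigOperators Polynomial
open Polynomial

namespace Pool.Agent.EVT

open Pool.Agent.ETU

variable {n : ℕ}

/-- `T ^ 2 - κ T + 1` -/
noncomputable def dB (κ : ℤ) : ℤ[X] := X ^ 2 - C κ * X + 1

/-- the equation, `m = ∑ e i` -/
noncomputable def eqB (a : Fin n → ℤ) (e : Fin n → ℕ) (c κ : ℤ) : ℚ[X][X] :=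
  ∏ i, (X - C (C (a i : ℚ) * X)) ^ e i -
    C (C ((c : ℚ)⁻¹) * X ^ (∑ i, e i - 1) * (X ^ 2 - C (κ : ℚ) * X + 1))

theorem eqB_monic (a : Fin n → ℤ) (e : Fin n → ℕ) (c κ : ℤ) (hm : 0 < ∑ i, e i) :
    (eqB a e c κ).Monic := by
  have hmon0 : (∏ i, (X - C (C (a i : ℚ) * X)) ^ e i : ℚ[X][X]).Monic :=
    monic_prod_of_monic _ _ fun i _ => (monic_X_sub_C _).pow _
  have hdeg0 : (∏ i, (X - C (C (a i : ℚ) * X)) ^ e i : ℚ[X][X]).natDegree = ∑ i, e i := by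
    rw [natDegree_prod_of_monic _ _ fun i _ => (monic_X_sub_C _).pow _]
    refine Finset.sum_congr rfl fun i _ => ?_
    rw [natDegree_pow, natDegree_X_sub_C, mul_one]
  unfold eqB
  refine hmon0.sub_of_left ?_
  rw [degree_eq_natDegree hmon0.ne_zero, hdeg0]
  exact lt_of_le_of_lt degree_C_le (by exact_mod_cast hm)

theorem eqB_natDegree (a : Fin n → ℤ) (e : Fin n → ℕ) (c κ : ℤ) :
    (eqB a e c κ).natDegree = ∑ i, e i := by
  unfold eqB
  rw [natDegree_sub_C, natDegree_prod_of_monic _ _ fun i _ => (monic_X_sub_C _).pow _]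
  refine Finset.sum_congr rfl fun i _ => ?_
  rw [natDegree_pow, natDegree_X_sub_C, mul_one]

theorem ev2_eqB {M : Type} [Field M] [CharZero M] (a : Fin n → ℤ) (e : Fin n → ℕ) (c κ : ℤ)
    (w y : M) : ev2 w y (eqB a e c κ) =
      ∏ i, (y - a i * w) ^ e i - (c : M)⁻¹ * w ^ (∑ i, e i - 1) * (w ^ 2 - κ * w + 1) := by
  have h1 : ∀ q : ℚ[X], ev2 w y (C q) = aeval w q := by
    intro q
    unfold ev2
    simp
  have h2 : ev2 w y (X : ℚ[X][X]) = y := by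
    unfold ev2
    simp
  unfold eqB
  rw [map_sub, h1, map_prod]
  congr 1
  · refine Finset.prod_congr rfl fun i _ => ?_
    rw [map_pow, map_sub, h1, h2, map_mul, aeval_C, aeval_X]
    simp
  · rw [map_mul, map_mul, map_pow, aeval_X, aeval_C, map_add, map_sub, map_mul, map_pow, aeval_X,
      aeval_C, map_one]
    simp

/-- the curve -/
theorem ev2_eqB_curve {M : Type} [Field M] [CharZero M] (a : Fin n → ℤ) (e : Fin n → ℕ) {c κ : ℤ}
    (hm : 0 < ∑ i, e i) (hc : c ≠ 0) {w x : M} (hw : w ≠ 0)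
    (h : w + w⁻¹ = c * ∏ i, (x - a i) ^ e i + κ) : ev2 w (w * x) (eqB a e c κ) = 0 := by
  have hc' : (c : M) ≠ 0 := by exact_mod_cast hc
  rw [ev2_eqB]
  have h1 : ∏ i, (w * x - a i * w) ^ e i = w ^ (∑ i, e i) * ∏ i, (x - a i) ^ e i := by
    rw [← Finset.prod_pow_eq_pow_sum, ← Finset.prod_mul_distrib]
    refine Finset.prod_congr rfl fun i _ => ?_
    rw [← mul_pow]
    congr 1; ring
  have h2 : w ^ 2 - κ * w + 1 = c * w * ∏ i, (x - a i) ^ e i := by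
    have h3 : w * (w + w⁻¹) = w * (c * ∏ i, (x - a i) ^ e i + κ) := by rw [h]
    rw [mul_add, mul_inv_cancel₀ hw] at h3
    linear_combination h3
  have h4 : w ^ (∑ i, e i) = w ^ (∑ i, e i - 1) * w := by
    rw [← pow_succ]; congr 1; omega
  rw [h1, h2, h4]
  field_simp
  ring

variable {p : ℕ} [Fact p.Prime]

/-- a large product forces a large `x` -/
theorem norm_of_prod {m : ℕ} (a : Fin n → ℤ) (e : Fin n → ℕ) (hem : ∑ i, e i = m)
    {x : PadicAlgCl p} {v : ℤ} (hv : 0 < v)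
    (h : ‖∏ i, (x - a i) ^ e i‖ = (p : ℝ) ^ v) : ‖x‖ ^ m = (p : ℝ) ^ v := by
  have hp1 : (1 : ℝ) < p := one_lt_p
  have ha : ∀ i, ‖(a i : PadicAlgCl p)‖ ≤ 1 := fun i => IsUltrametricDist.norm_intCast_le_one _ _
  have hx : 1 < ‖x‖ := by
    by_contra hx
    have h1 : ‖∏ i, (x - a i) ^ e i‖ ≤ 1 := by
      rw [norm_prod]
      refine Finset.prod_le_one (fun _ _ => norm_nonneg _) fun i _ => ?_
      rw [norm_pow]
      exact pow_le_one₀ (norm_nonneg _) ((sub_max _ _).trans (max_le (not_lt.1 hx) (ha i)))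
    rw [h] at h1
    exact absurd (one_lt_zpow₀ hp1 hv) (not_lt.2 h1)
  have h2 : ∀ i, ‖x - a i‖ = ‖x‖ := by
    intro i
    rw [sub_eq_add_neg]
    refine norm_add_of_lt ?_
    rw [norm_neg]
    exact lt_of_le_of_lt (ha i) hx
  rw [← h, norm_prod, ← hem, ← Finset.prod_pow_eq_pow_sum]
  refine Finset.prod_congr rfl fun i _ => ?_
  rw [norm_pow, h2]

/-- the value of `x` over a point -/
theorem norm_curve {m : ℕ} (a : Fin n → ℤ) (e : Fin n → ℕ) (hem : ∑ i, e i = m) {c κ : ℤ}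
    {v : ℕ} (hv : 0 < v) (hcv : ‖(c : PadicAlgCl p)‖ = (p : ℝ) ^ (-(v : ℤ)))
    {α x : PadicAlgCl p} (hα : ‖α‖ = 1) (hD : ‖aeval α (dB κ)‖ = 1)
    (h : c * α * ∏ i, (x - a i) ^ e i = α ^ 2 - κ * α + 1) : ‖x‖ ^ m = (p : ℝ) ^ (v : ℤ) := by
  have hp0 : (0 : ℝ) < p := norm_pos_p
  have hD' : aeval α (dB κ) = α ^ 2 - κ * α + 1 := by
    unfold dB
    rw [map_add, map_sub, map_mul, map_pow, aeval_X, aeval_C, map_one]
    simp
  refine norm_of_prod a e hem (by exact_mod_cast hv) ?_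
  have h1 := congrArg norm h
  rw [norm_mul, norm_mul, hα, mul_one, ← hD', hD, hcv] at h1
  have h2 : (p : ℝ) ^ (v : ℤ) * ((p : ℝ) ^ (-(v : ℤ)) * ‖∏ i, (x - a i) ^ e i‖) =
      (p : ℝ) ^ (v : ℤ) := by rw [h1, mul_one]
  rw [← mul_assoc, ← zpow_add₀ hp0.ne', add_neg_cancel, zpow_zero, one_mul] at h2
  exact h2

theorem ramC_eqB {m : ℕ} (hm : 0 < m) (a : Fin n → ℤ) (e : Fin n → ℕ) (hem : ∑ i, e i = m)
    {c κ : ℤ} (hc : c ≠ 0) {v : ℕ} (hv : 0 < v) (hvm : Nat.Coprime v m)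
    (hcv : ‖(c : PadicAlgCl p)‖ = (p : ℝ) ^ (-(v : ℤ))) : RamC p m (dB κ) (eqB a e c κ) := by
  intro α y hα hD hy
  have hα0 : α ≠ 0 := by
    intro h; rw [h, norm_zero] at hα; exact zero_ne_one hα
  have hc' : (c : PadicAlgCl p) ≠ 0 := by exact_mod_cast hc
  refine ⟨v, Nat.isCoprime_iff_coprime.2 hvm, ?_⟩
  rw [ev2_eqB, hem, sub_eq_zero] at hy
  have h1 : ∏ i, (y - a i * α) ^ e i = α ^ m * ∏ i, (y / α - a i) ^ e i := by
    rw [← hem, ← Finset.prod_pow_eq_pow_sum, ← Finset.prod_mul_distrib]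
    refine Finset.prod_congr rfl fun i _ => ?_
    rw [← mul_pow]
    congr 1; field_simp
  have h4 : α ^ m = α ^ (m - 1) * α := by
    rw [← pow_succ]; congr 1; omega
  have h5 : c * α * ∏ i, (y / α - a i) ^ e i = α ^ 2 - κ * α + 1 := by
    have h6 : α ^ (m - 1) ≠ 0 := pow_ne_zero _ hα0
    rw [h1, h4] at hy
    have h7 : α ^ (m - 1) * (c * α * ∏ i, (y / α - a i) ^ e i) =
        α ^ (m - 1) * (α ^ 2 - κ * α + 1) := by
      have h8 : (c : PadicAlgCl p) * _ = (c : PadicAlgCl p) * _ := congrArg _ hy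
      have h9 : (c : PadicAlgCl p) * ((c : PadicAlgCl p)⁻¹ * α ^ (m - 1) * (α ^ 2 - κ * α + 1)) =
          α ^ (m - 1) * (α ^ 2 - κ * α + 1) := by
        field_simp
      rw [h9] at h8
      rw [← h8]; ring
    exact mul_left_cancel₀ h6 h7
  have h6 := norm_curve a e hem hv hcv hα hD h5
  rw [norm_div, hα, div_one] at h6
  exact h6

end Pool.Agent.EVT
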