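import Pool.Agent.ETU.Unq
import Pool.Agent.EVT.RamB

/-! EVT (helper24): one place of the curve w + 1/w = c ∏ (x - a i)^(e i) + κ over every point which
has a conjugate in the tame field. -/

open scoped BigOperators Polynomial
open Polynomial

namespace Pool.Agent.EVT

open Pool.Agent.ETU Pool.Agent.CST Pool.Agent.ISG Pool.Agent.Helper11 Pool.Agent.ISI Pool.Agent.CS2

theorem place_eqB {K : Type} [Field K] [CharZero K] {n m p : ℕ} [Fact p.Prime] {a : Fin n → ℤ}
    {e : Fin n → ℕ} {c κ : ℤ} {x w : K} (hw : Transcendental ℚ w)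
    (hgen : IntermediateField.adjoin ℚ {x, w} = ⊤) (hm : 0 < m) (hem : ∑ i, e i = m)
    (hc : c ≠ 0) (hcurve : w + w⁻¹ = c * ∏ i, (x - a i) ^ e i + κ) {v : ℕ} (hv : 0 < v)
    (hvm : Nat.Coprime v m) (hcv : ‖(c : PadicAlgCl p)‖ = (p : ℝ) ^ (-(v : ℤ)))
    {F : IntermediateField ℚ_[p] (PadicAlgCl p)} (hF : IsTame p m F) {P : ℚ[X]} (hP : P.Monic)
    (hP' : Irreducible P) {α : PadicAlgCl p} (hα : aeval α P = 0) (hαF : α ∈ F) (h1 : ‖α‖ = 1)
    (hD : ‖aeval α (dB κ)‖ = 1) {O O' : ValuationSubring K} (hO : IsPl O) (hO' : IsPl O')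
    (hv1 : O.valuation (aeval w P) < 1) (hv1' : O'.valuation (aeval w P) < 1) : O = O' := by
  have hw0 : w ≠ 0 := by
    rintro rfl
    exact hw isAlgebraic_zero
  have hgen' : IntermediateField.adjoin ℚ {w, w * x} = ⊤ := by
    rw [eq_top_iff, ← hgen, IntermediateField.adjoin_le_iff]
    have hw1 : w ∈ IntermediateField.adjoin ℚ {w, w * x} :=
      IntermediateField.subset_adjoin _ _ (by simp)
    have hwx : w * x ∈ IntermediateField.adjoin ℚ {w, w * x} :=
      IntermediateField.subset_adjoin _ _ (by simp)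
    rintro y (rfl | hy)
    · have h2 : (w * y) * w⁻¹ = y := by field_simp
      have h3 := mul_mem hwx (inv_mem hw1)
      rw [h2] at h3
      exact h3
    · rw [Set.mem_singleton_iff] at hy
      rw [hy]; exact hw1
  refine place_eq hw (eqB_monic a e c κ (by rw [hem]; exact hm)) (by rw [eqB_natDegree, hem])
    (ev2_eqB_curve a e (by rw [hem]; exact hm) hc hw0 hcurve) hgen' hP hP' hα ?_ hO hO' hv1 hv1'
  intro R hR y hy hRy i
  obtain ⟨h, hh, hyn⟩ := ramC_eqB hm a e hem hc hv hvm hcv α y h1 hD hy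
  have h2 := hF.zero_of_root hm hαF hh hyn R hR hRy i
  by_contra hn
  obtain ⟨s, t, hst⟩ := (hP'.coprime_iff_not_dvd).2 hn
  have h3 := congrArg (aeval α) hst
  rw [map_add, map_mul, map_mul, hα, h2, mul_zero, mul_zero, add_zero, map_one] at h3
  exact zero_ne_one h3

/-- a root of an integral polynomial with unit derivative lies in the tame field -/
theorem IsTame.mem_simple {p m : ℕ} [Fact p.Prime] {F : IntermediateField ℚ_[p] (PadicAlgCl p)}
    (hF : IsTame p m F) (g : ℤ[X]) {α : PadicAlgCl p} (hα : ‖α‖ ≤ 1) (h0 : aeval α g = 0)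
    (h1 : ‖aeval α (derivative g)‖ = 1) : α ∈ F := by
  refine mem_of_fixed α fun σ => ?_
  have hσ := hF.iner σ α hα
  have hσ0 : aeval (σ α) g = 0 := by
    have h2 : aeval (σ α) g = σ (aeval α g) := by
      have := Polynomial.hom_eval₂ g (Int.castRingHom (PadicAlgCl p))
        (σ : PadicAlgCl p →+* PadicAlgCl p) α
      have h3 : (σ : PadicAlgCl p →+* PadicAlgCl p).comp (Int.castRingHom (PadicAlgCl p)) =
          Int.castRingHom (PadicAlgCl p) := RingHom.ext_int _ _
      rw [h3] at this
      rw [Polynomial.aeval_def, Polynomial.aeval_def]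
      exact this.symm
    rw [h2, h0, map_zero]
  set δ := σ α - α with hδ
  by_contra hne
  have hδ0 : δ ≠ 0 := sub_ne_zero.2 hne
  -- Taylor
  obtain ⟨k, hk⟩ : ∃ k : PadicAlgCl p, ‖k‖ ≤ 1 ∧
      aeval (α + δ) g = aeval α g + aeval α (derivative g) * δ + k * δ ^ 2 := by
    have hind : ∀ q : ℤ[X], ∃ k : PadicAlgCl p, ‖k‖ ≤ 1 ∧
        aeval (α + δ) q = aeval α q + aeval α (derivative q) * δ + k * δ ^ 2 := by
      intro q
      induction q using Polynomial.induction_on' with
      | add q r hq hr =>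
        obtain ⟨k₁, hk₁, e₁⟩ := hq
        obtain ⟨k₂, hk₂, e₂⟩ := hr
        refine ⟨k₁ + k₂, (IsUltrametricDist.norm_add_le_max _ _).trans (max_le hk₁ hk₂), ?_⟩
        rw [map_add, map_add, e₁, e₂, derivative_add, map_add]; ring
      | monomial j b =>
        induction j with
        | zero =>
          refine ⟨0, by simp, ?_⟩
          simp
        | succ j ih =>
          obtain ⟨k, hk, e⟩ := ih
          have hδ1 : ‖δ‖ ≤ 1 := hσ.le
          refine ⟨k * (α + δ) + aeval α (derivative (monomial j b)), ?_, ?_⟩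
          · refine (IsUltrametricDist.norm_add_le_max _ _).trans (max_le ?_ (aeval_int_le _ hα))
            rw [norm_mul]
            refine mul_le_one₀ hk (norm_nonneg _) ?_
            exact (IsUltrametricDist.norm_add_le_max _ _).trans (max_le hα hδ1)
          · have e1 : (monomial (j + 1) b : ℤ[X]) = monomial j b * X := by
              rw [monomial_mul_X]
            rw [e1, map_mul, map_mul, aeval_X, aeval_X, e, derivative_mul, derivative_X, map_add,
              map_mul, mul_one, aeval_X]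
            ring
    exact hind g
  have h4 : aeval (α + δ) g = 0 := by
    rw [hδ, add_sub_cancel]; exact hσ0
  rw [h4, h0, zero_add] at hk
  have h5 : δ * (aeval α (derivative g) + k * δ) = 0 := by
    have := hk.2
    linear_combination -this
  rcases mul_eq_zero.1 h5 with h6 | h6
  · exact hδ0 h6
  · have h7 : aeval α (derivative g) = -(k * δ) := eq_neg_of_add_eq_zero_left h6
    rw [h7, norm_neg, norm_mul] at h1
    have h8 : ‖k‖ * ‖δ‖ < 1 := mul_lt_one_of_nonneg_of_lt_one_right hk.1 (norm_nonneg _) hσ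
    rw [h1] at h8
    exact lt_irrefl _ h8

end Pool.Agent.EVT
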