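import Pool.Agent.EVT.VanQ

/-! EVT (helper24): step 5 of part (B).  If a power of `∏ (x₀ - a i) ^ u i`, `∑ u i = 0`, lies in
the tame field, where `∏ (x₀ - a i) ^ e i` is in the tame field and `x₀` has a value with
denominator `m = ∑ e i`, then `u = 0`. -/

open scoped BigOperators Polynomial
open Polynomial IntermediateField

namespace Pool.Agent.EVT

open Pool.Agent.ETU

variable {p m n : ℕ} [Fact p.Prime]

lemma near_one_mul {s t : PadicAlgCl p} (hs : ‖s - 1‖ < 1) (ht : ‖t - 1‖ < 1) :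
    ‖s * t - 1‖ < 1 := by
  have e : s * t - 1 = (s - 1) * (t - 1) + ((s - 1) + (t - 1)) := by ring
  rw [e]
  refine lt_of_le_of_lt (IsUltrametricDist.norm_add_le_max _ _) (max_lt ?_ ?_)
  · rw [norm_mul]
    exact mul_lt_one_of_nonneg_of_lt_one_left (norm_nonneg _) hs ht.le
  · exact lt_of_le_of_lt (IsUltrametricDist.norm_add_le_max _ _) (max_lt hs ht)

lemma near_one_pow {s : PadicAlgCl p} (hs : ‖s - 1‖ < 1) (k : ℕ) : ‖s ^ k - 1‖ < 1 := by
  induction k with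
  | zero => simp
  | succ k ih => rw [pow_succ]; exact near_one_mul ih hs

/-- `∏ (z - a i) ^ e i` is close to `z ^ m` for large `z` -/
lemma prod_near (a : Fin n → ℤ) (e : Fin n → ℕ) (hem : ∑ i, e i = m) {z : PadicAlgCl p}
    (hz : 1 < ‖z‖) : ‖∏ i, (z - a i) ^ e i - z ^ m‖ < ‖z‖ ^ m := by
  have hz0 : z ≠ 0 := by
    intro h; rw [h, norm_zero] at hz; linarith
  have h1 : ∏ i, (z - a i) ^ e i = z ^ m * ∏ i, (1 - a i * z⁻¹) ^ e i := by
    rw [← hem, ← Finset.prod_pow_eq_pow_sum, ← Finset.prod_mul_distrib]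
    refine Finset.prod_congr rfl fun i _ => ?_
    rw [← mul_pow]
    congr 1
    field_simp
  have h2 : ‖∏ i, (1 - (a i : PadicAlgCl p) * z⁻¹) ^ e i - 1‖ < 1 := by
    refine Finset.prod_induction (fun i => (1 - (a i : PadicAlgCl p) * z⁻¹) ^ e i)
      (fun t => ‖t - 1‖ < 1) (fun s t hs ht => near_one_mul hs ht) (by simp) fun i _ => ?_
    refine near_one_pow ?_ _
    have e1 : 1 - (a i : PadicAlgCl p) * z⁻¹ - 1 = -((a i : PadicAlgCl p) * z⁻¹) := by ring
    rw [e1, norm_neg, norm_mul, norm_inv]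
    have h3 : ‖(a i : PadicAlgCl p)‖ ≤ 1 := IsUltrametricDist.norm_intCast_le_one _ _
    exact mul_lt_one_of_nonneg_of_lt_one_right h3 (by positivity) (inv_lt_one_of_one_lt₀ hz)
  have e2 : ∏ i, (z - a i) ^ e i - z ^ m = z ^ m * (∏ i, (1 - (a i : PadicAlgCl p) * z⁻¹) ^ e i - 1) := by
    rw [h1]; ring
  rw [e2, norm_mul, norm_pow]
  exact mul_lt_of_lt_one_right (pow_pos (by linarith) _) h2

/-- the polynomial of `x₀` over the tame field -/
lemma minpoly_eq (hm : 0 < m) {F : IntermediateField ℚ_[p] (PadicAlgCl p)} (hF : IsTame p m F)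
    (a : Fin n → ℤ) (e : Fin n → ℕ) (hem : ∑ i, e i = m) {γ x₀ : PadicAlgCl p} (hγ : γ ∈ F)
    (hx : ∏ i, (x₀ - a i) ^ e i = γ) {v : ℤ} (hv : IsCoprime v (m : ℤ))
    (hn : ‖x₀‖ ^ m = (p : ℝ) ^ v) :
    minpoly F x₀ = ∏ i, (X - C (a i : F)) ^ e i - C ⟨γ, hγ⟩ := by
  set g : F[X] := ∏ i, (X - C (a i : F)) ^ e i - C ⟨γ, hγ⟩ with hg
  have hmon0 : (∏ i, (X - C (a i : F)) ^ e i : F[X]).Monic :=
    monic_prod_of_monic _ _ fun i _ => (monic_X_sub_C _).pow _
  have hdeg0 : (∏ i, (X - C (a i : F)) ^ e i : F[X]).natDegree = m := by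
    rw [natDegree_prod_of_monic _ _ fun i _ => (monic_X_sub_C _).pow _, ← hem]
    refine Finset.sum_congr rfl fun i _ => ?_
    rw [natDegree_pow, natDegree_X_sub_C, mul_one]
  have hdeg : g.natDegree = m := by
    rw [hg, natDegree_sub_C, hdeg0]
  have hmon : g.Monic := by
    rw [hg]
    refine hmon0.sub_of_left ?_
    rw [degree_eq_natDegree hmon0.ne_zero, hdeg0]
    exact lt_of_le_of_lt degree_C_le (by exact_mod_cast hm)
  have hroot : aeval x₀ g = 0 := by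
    rw [hg, map_sub, aeval_C, map_prod]
    have h1 : ∏ i, aeval x₀ ((X - C (a i : F)) ^ e i) = ∏ i, (x₀ - a i) ^ e i := by
      refine Finset.prod_congr rfl fun i _ => ?_
      rw [map_pow, map_sub, aeval_X, aeval_C]
      simp
    rw [h1, hx]
    exact sub_self _
  have hdvd := minpoly.dvd F x₀ hroot
  have hm1 := hF.wdeg hm x₀ v hv hn
  have hpos := minpoly.natDegree_pos (isInt (F := F) x₀)
  have hle := Nat.le_of_dvd hpos hm1
  exact (eq_of_monic_of_dvd_of_natDegree_le (minpoly.monic (isInt x₀)) hmon hdvd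
    (by rw [hdeg]; exact hle)).symm

theorem van (hm : 0 < m) (hpm : Nat.Coprime m (p * (p - 1)))
    {F : IntermediateField ℚ_[p] (PadicAlgCl p)} (hF : IsTame p m F) {a : Fin n → ℤ}
    (ha : ∀ i j, i ≠ j → ¬ (p : ℤ) ∣ a i - a j) {e : Fin n → ℕ} (he : ∀ i, 0 < e i)
    (hem : ∑ i, e i = m) {γ x₀ : PadicAlgCl p} (hγ : γ ∈ F) (hx : ∏ i, (x₀ - a i) ^ e i = γ)
    {v : ℤ} (hv : IsCoprime v (m : ℤ)) (hv0 : 0 < v) (hn : ‖x₀‖ ^ m = (p : ℝ) ^ v)
    {u : Fin n → ℤ} (hu : ∑ i, u i = 0) {M : ℕ} (hM : 0 < M)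
    (hH : (∏ i, (x₀ - a i) ^ u i) ^ M ∈ F) : u = 0 := by
  classical
  have hpp : p.Prime := Fact.out
  have hp0 : (0 : ℝ) < p := norm_pos_p
  have hp1 : (1 : ℝ) < p := one_lt_p
  have hpm' : ¬ p ∣ m := by
    intro h
    have h1 : p ∣ Nat.gcd m (p * (p - 1)) := Nat.dvd_gcd h (dvd_mul_right _ _)
    rw [hpm] at h1
    exact hpp.one_lt.ne' (Nat.dvd_one.1 h1)
  by_contra hne
  -- reduction to a primitive vector
  obtain ⟨i₀, hi₀⟩ : ∃ i, u i ≠ 0 := by
    by_contra h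
    push Not at h
    exact hne (funext h)
  obtain ⟨d, w, hd, hprim, hdw⟩ : ∃ (d : ℕ) (w : Fin n → ℤ), 0 < d ∧ (∃ i, ¬ (p : ℤ) ∣ w i) ∧
      ∀ i, u i = d * w i := by
    set G := Finset.univ.gcd u with hG
    have hG0 : G ≠ 0 := by
      intro h
      rw [hG, Finset.gcd_eq_zero_iff] at h
      exact hi₀ (h i₀ (Finset.mem_univ _))
    obtain ⟨w, hw1, hw2⟩ := Finset.extract_gcd u (s := Finset.univ) ⟨i₀, Finset.mem_univ _⟩
    refine ⟨G.natAbs, w, Int.natAbs_pos.2 hG0, ?_, ?_⟩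
    · by_contra h
      push Not at h
      have h1 : (p : ℤ) ∣ Finset.univ.gcd w := Finset.dvd_gcd fun i _ => h i
      rw [hw2] at h1
      have h2 := Int.isUnit_iff.1 (isUnit_of_dvd_one h1)
      have h3 := hpp.two_le
      omega
    · intro i
      have h1 := hw1 i (Finset.mem_univ i)
      have h2 : 0 ≤ G := by
        rw [hG]
        exact Int.nonneg_of_normalize_eq_self Finset.normalize_gcd
      rw [h1, Int.natAbs_of_nonneg h2]
  obtain ⟨i₁, hi₁⟩ := hprim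
  have hsw : ∑ i, w i = 0 := by
    have h1 : (d : ℤ) * ∑ i, w i = 0 := by
      rw [Finset.mul_sum, ← hu]
      exact Finset.sum_congr rfl fun i _ => (hdw i).symm
    rcases mul_eq_zero.1 h1 with h2 | h2
    · exfalso; omega
    · exact h2
  have hnm : n ≤ m := by
    rw [← hem]
    calc n = ∑ _i : Fin n, 1 := by simp
      _ ≤ ∑ i, e i := Finset.sum_le_sum fun i _ => he i
  -- sizes
  have hx1 : 1 < ‖x₀‖ := by
    by_contra h
    have h1 : ‖x₀‖ ^ m ≤ 1 := pow_le_one₀ (norm_nonneg _) (not_lt.1 h)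
    rw [hn] at h1
    exact absurd (one_lt_zpow₀ hp1 hv0) (not_lt.2 h1)
  have hx0 : x₀ ≠ 0 := by
    intro h; rw [h, norm_zero] at hx1; linarith
  -- a primitive root of unity
  obtain ⟨ω, hω⟩ : ∃ ω : PadicAlgCl p, IsPrimitiveRoot ω m := by
    have hmΩ : NeZero (m : PadicAlgCl p) := ⟨by exact_mod_cast hm.ne'⟩
    have hdeg : (cyclotomic m (PadicAlgCl p)).degree ≠ 0 := by
      rw [degree_cyclotomic]
      have := Nat.totient_pos.2 hm
      intro h
      have h1 : Nat.totient m = 0 := by exact_mod_cast h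
      omega
    obtain ⟨ω, hω⟩ := IsAlgClosed.exists_root (cyclotomic m (PadicAlgCl p)) hdeg
    exact ⟨ω, isRoot_cyclotomic_iff.1 hω⟩
  have hω1 : ‖ω‖ = 1 := by
    have h1 : ‖ω‖ ^ m = 1 := by rw [← norm_pow, hω.pow_eq_one, norm_one]
    exact (pow_eq_one_iff_of_nonneg (norm_nonneg _) hm.ne').1 h1
  have hωl : ∀ l, 0 < l → l < m → ‖ω ^ l - 1‖ = 1 := by
    intro l h1 h2
    refine le_antisymm ?_ ?_
    · refine (sub_max _ _).trans (max_le ?_ (by rw [norm_one]))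
      rw [norm_pow, hω1, one_pow]
    · by_contra h
      have h3 : ω ^ l = 1 := root_near hpp na_padic hpm'
        (by rw [← pow_mul, mul_comm, pow_mul, hω.pow_eq_one, one_pow]) (not_le.1 h)
      have h4 := hω.dvd_of_pow_eq_one l h3
      exact absurd (Nat.le_of_dvd h1 h4) (not_le.2 h2)
  -- a conjugate close to `ω x₀`
  set q := (minpoly F x₀).map (algebraMap F (PadicAlgCl p)) with hq
  have hqmon : q.Monic := (minpoly.monic (isInt x₀)).map _
  have hqs : q.Splits := IsAlgClosed.splits q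
  have hme := minpoly_eq hm hF a e hem hγ hx hv hn
  have hqe : ∀ z : PadicAlgCl p, eval z q = ∏ i, (z - a i) ^ e i - γ := by
    intro z
    rw [hq, hme, eval_map, ← aeval_def, map_sub, aeval_C, map_prod]
    have h1 : ∏ i, aeval z ((X - C (a i : F)) ^ e i) = ∏ i, (z - a i) ^ e i := by
      refine Finset.prod_congr rfl fun i _ => ?_
      rw [map_pow, map_sub, aeval_X, aeval_C]
      simp
    rw [h1]
    rfl
  have hqd : q.natDegree = m := by
    have hdeg0 : (∏ i, (X - C (a i : F)) ^ e i : F[X]).natDegree = m := by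
      rw [natDegree_prod_of_monic _ _ fun i _ => (monic_X_sub_C _).pow _, ← hem]
      refine Finset.sum_congr rfl fun i _ => ?_
      rw [natDegree_pow, natDegree_X_sub_C, mul_one]
    rw [hq, natDegree_map, hme, natDegree_sub_C, hdeg0]
  have hωx : ‖ω * x₀‖ = ‖x₀‖ := by rw [norm_mul, hω1, one_mul]
  have hsmall : ‖eval (ω * x₀) q‖ < ‖x₀‖ ^ m := by
    have h1 := prod_near (p := p) a e hem hx1
    have h2 := prod_near (p := p) a e hem (z := ω * x₀) (by rw [hωx]; exact hx1)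
    rw [hωx, mul_pow, hω.pow_eq_one, one_mul] at h2
    have e1 : eval (ω * x₀) q = (∏ i, (ω * x₀ - a i) ^ e i - x₀ ^ m) -
        (∏ i, (x₀ - a i) ^ e i - x₀ ^ m) := by
      rw [hqe, hx]; ring
    rw [e1]
    exact lt_of_le_of_lt (sub_max _ _) (max_lt h2 h1)
  obtain ⟨x₁, hx₁r, hx₁⟩ : ∃ x₁ ∈ q.roots, ‖ω * x₀ - x₁‖ < ‖x₀‖ := by
    by_contra hcon
    push Not at hcon
    have h1 : eval (ω * x₀) q = (q.roots.map (fun b => ω * x₀ - b)).prod := by
      have := hqs.eval_eq_prod_roots (ω * x₀)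
      rw [this, hqmon.leadingCoeff, one_mul]
    have h2 : ∀ s : Multiset (PadicAlgCl p), (∀ b ∈ s, ‖x₀‖ ≤ ‖ω * x₀ - b‖) →
        ‖x₀‖ ^ s.card ≤ ‖(s.map (fun b => ω * x₀ - b)).prod‖ := by
      intro s
      induction s using Multiset.induction with
      | empty => intro _; simp
      | cons b s ih =>
        intro hs
        rw [Multiset.map_cons, Multiset.prod_cons, norm_mul, Multiset.card_cons, pow_succ,
          mul_comm]
        exact mul_le_mul (hs b (Multiset.mem_cons_self b s))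
          (ih fun c hc => hs c (Multiset.mem_cons_of_mem hc)) (by positivity) (norm_nonneg _)
    have h3 := h2 q.roots hcon
    rw [← h1, ← hqs.natDegree_eq_card_roots, hqd] at h3
    exact absurd hsmall (not_lt.2 h3)
  have hx₁root : aeval x₁ (minpoly F x₀) = 0 := by
    rw [mem_roots hqmon.ne_zero, IsRoot.def, hq, eval_map] at hx₁r
    rw [aeval_def]; exact hx₁r
  obtain ⟨σ, hσ⟩ := minpoly.exists_algEquiv_of_root' (K := F) (isInt x₀).isAlgebraic hx₁root
  have hnx₁ : ‖x₁‖ = ‖x₀‖ := norm_root (F := F) x₀ x₁ hx₁root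
  have hx₁0 : x₁ ≠ 0 := by
    rw [← norm_ne_zero_iff, hnx₁, norm_ne_zero_iff]; exact hx0
  -- the inverses
  set y₀ := x₀⁻¹ with hy₀
  set y₁ := x₁⁻¹ with hy₁
  have hny₀ : ‖y₀‖ = ‖x₀‖⁻¹ := norm_inv _
  have hny₁ : ‖y₁‖ = ‖y₀‖ := by rw [hy₁, hy₀, norm_inv, norm_inv, hnx₁]
  have hρ : ‖y₀‖ ^ m = (p : ℝ) ^ (-v) := by
    rw [hny₀, inv_pow, hn, zpow_neg]
  set η := x₁ / x₀ with hη
  have hη1 : ‖η‖ = 1 := by
    rw [hη, norm_div, hnx₁, div_self (norm_ne_zero_iff.2 hx0)]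
  have hηω : ‖η - ω‖ < 1 := by
    have e1 : η - ω = -((ω * x₀ - x₁) / x₀) := by
      rw [hη]; field_simp; ring
    rw [e1, norm_neg, norm_div, div_lt_one (norm_pos_iff.2 hx0)]
    exact hx₁
  have hηl : ∀ l, 0 < l → l < m → ‖y₁ ^ l - y₀ ^ l‖ = ‖y₀‖ ^ l := by
    intro l h1 h2
    have h3 : ‖η ^ l - ω ^ l‖ < 1 := lt_of_le_of_lt (pow_sub_le l η ω hη1.le hω1.le) hηω
    have h4 : ‖η ^ l - 1‖ = 1 := by
      have e1 : η ^ l - 1 = (ω ^ l - 1) + (η ^ l - ω ^ l) := by ring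
      rw [e1, norm_add_of_lt, hωl l h1 h2]
      rw [hωl l h1 h2]; exact h3
    have e2 : y₁ ^ l - y₀ ^ l = -(y₁ ^ l * (η ^ l - 1)) := by
      rw [hy₁, hy₀, hη, div_pow, inv_pow, inv_pow]
      field_simp
      ring
    rw [e2, norm_neg, norm_mul, h4, mul_one, norm_pow, hny₁]
  obtain ⟨s, hs, hse⟩ := van_est hnm ha hsw hi₁ hv hv0 hρ hny₁ hηl
  -- the value of the function
  have hval : ∀ x : PadicAlgCl p, 1 < ‖x‖ → ∏ i, (x - a i) ^ w i =
      aeval x⁻¹ (Ap (gv a) w) / aeval x⁻¹ (Ap (gv a) (-w)) ∧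
      ‖∏ i, (x - a i) ^ w i‖ = 1 := by
    intro x hx'
    have hx'0 : x ≠ 0 := by
      intro h; rw [h, norm_zero] at hx'; linarith
    have hinv : ‖x⁻¹‖ < 1 := by rw [norm_inv]; exact inv_lt_one_of_one_lt₀ hx'
    have hgu : ∀ i, ‖aeval x⁻¹ (gv a i)‖ = 1 := fun i =>
      aeval_unit (gv a i) (gv_coeff_zero a i) hinv
    have hg0 : ∀ i, aeval x⁻¹ (gv a i) ≠ 0 := fun i h => by
      have := hgu i; rw [h, norm_zero] at this; exact zero_ne_one this
    have hAe : ∀ z : Fin n → ℤ, aeval x⁻¹ (Ap (gv a) z) =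
        ∏ i, (aeval x⁻¹ (gv a i)) ^ (z i).toNat := by
      intro z
      unfold Ap
      rw [map_prod]
      exact Finset.prod_congr rfl fun i _ => by rw [map_pow]
    have h1 : ∏ i, (x - a i) ^ w i = ∏ i, (aeval x⁻¹ (gv a i)) ^ w i := by
      have h2 : ∀ i, x - a i = x * aeval x⁻¹ (gv a i) := by
        intro i
        have h3 : aeval x⁻¹ (gv a i) = 1 - (a i : PadicAlgCl p) * x⁻¹ := by
          unfold gv
          rw [map_sub, map_one, map_mul, aeval_X, aeval_C]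
          simp
        rw [h3]
        field_simp
      have h4 : ∏ i, (x - a i) ^ w i = ∏ i, (x ^ w i * (aeval x⁻¹ (gv a i)) ^ w i) :=
        Finset.prod_congr rfl fun i _ => by rw [h2 i, mul_zpow]
      rw [h4, Finset.prod_mul_distrib]
      have h5 : ∏ i, x ^ w i = 1 := by
        have : ∀ t : Finset (Fin n), ∏ i ∈ t, x ^ w i = x ^ ∑ i ∈ t, w i := by
          intro t
          induction t using Finset.induction with
          | empty => simp
          | insert b t hb ih =>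
            rw [Finset.prod_insert hb, Finset.sum_insert hb, ih, zpow_add₀ hx'0]
        rw [this, hsw, zpow_zero]
      rw [h5, one_mul]
    constructor
    · rw [h1, hAe, hAe, ← Finset.prod_div_distrib]
      refine Finset.prod_congr rfl fun i _ => ?_
      rw [← zpow_natCast, ← zpow_natCast, ← zpow_sub₀ (hg0 i)]
      congr 1
      simp only [Pi.neg_apply]
      omega
    · rw [h1, norm_prod]
      exact Finset.prod_eq_one fun i _ => by rw [norm_zpow, hgu, one_zpow]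
  obtain ⟨hv₀, hn₀⟩ := hval x₀ hx1
  obtain ⟨hv₁, -⟩ := hval x₁ (by rw [hnx₁]; exact hx1)
  set h₀ := ∏ i, (x₀ - a i) ^ w i with hh₀
  set h₁ := ∏ i, (x₁ - a i) ^ w i with hh₁
  have hh₀0 : h₀ ≠ 0 := by
    intro h; rw [h, norm_zero] at hn₀; exact zero_ne_one hn₀
  have hσh : σ h₀ = h₁ := by
    rw [hh₀, hh₁, map_prod]
    refine Finset.prod_congr rfl fun i _ => ?_
    rw [map_zpow₀, map_sub, hσ]
    simp
  have hHd : (∏ i, (x₀ - a i) ^ u i) = h₀ ^ d := by
    rw [hh₀, ← Finset.prod_pow]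
    refine Finset.prod_congr rfl fun i _ => ?_
    rw [hdw i, mul_comm, zpow_mul, zpow_natCast]
  have hpow : h₁ ^ (d * M) = h₀ ^ (d * M) := by
    have h1 : σ (h₀ ^ (d * M)) = h₀ ^ (d * M) := by
      have h2 : h₀ ^ (d * M) ∈ F := by
        rw [pow_mul, ← hHd]; exact hH
      exact σ.commutes ⟨_, h2⟩
    rw [map_pow, hσh] at h1
    exact h1
  set θ := h₁ / h₀ with hθ
  have hθF : θ ∈ F := by
    refine hF.root hpm (n := d * M) (Nat.mul_pos hd hM) ?_
    rw [hθ, div_pow, hpow, div_self (pow_ne_zero _ hh₀0)]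
  have hθn : ‖θ - 1‖ ^ m = (p : ℝ) ^ s := by
    have e1 : θ - 1 = (h₁ - h₀) / h₀ := by
      rw [hθ]; field_simp
    rw [e1, norm_div, hn₀, div_one, hv₁, hv₀]
    exact hse
  have hθ1 : θ - 1 ∈ F := sub_mem hθF (one_mem F)
  rcases hF.tm _ hθ1 with h | ⟨d', k, hd', hk⟩
  · rw [h, norm_zero, zero_pow hm.ne'] at hθn
    exact (zpow_pos hp0 s).ne hθn
  · have h2 : (p : ℝ) ^ (s * (d' : ℤ)) = (p : ℝ) ^ (k * (m : ℤ)) := by
      rw [zpow_mul, zpow_mul, zpow_natCast, zpow_natCast, ← hθn, ← hk, ← pow_mul, ← pow_mul,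
        mul_comm]
    have h3 := zpow_right_injective₀ hp0 hp1.ne' h2
    have h4 : (m : ℤ) ∣ s * (d' : ℤ) := ⟨k, by rw [h3]; ring⟩
    have h5 : IsCoprime (m : ℤ) (d' : ℤ) := Nat.isCoprime_iff_coprime.2 hd'.symm
    exact hs (h5.dvd_of_dvd_mul_right h4)

end Pool.Agent.EVT
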